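import Mathlib

/-!
Project BX (helper646): statements. The proportion `(k+1) ρ ^ k` of the vectors of every box is good.
-/

set_option autoImplicit false

namespace Pool.Agent.N646.BX

open Finset

/-- `X ⊆ [0, L)` has density at least `β` in every residue class modulo `m` in every interval of `w`
consecutive integers -/
def Equi (m w : ℕ) (β : ℝ) (X : Finset ℤ) (L : ℕ) : Prop :=
  ∀ u a : ℤ, 0 ≤ u → u + w ≤ L →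
    β * w ≤ m * ((X.filter (fun x => u ≤ x ∧ x < u + w ∧ x ≡ a [ZMOD m])).card : ℝ)

/-- **KW** Kneser's theorem for windows. -/
def S_KW : Prop := ∀ m₁ q : ℕ, 1 ≤ m₁ → 1 ≤ q → ∀ (u v : ℤ) (A B D : Finset ℤ),
  (∀ x ∈ A, u ≤ x ∧ x < u + q) → (∀ y ∈ B, v ≤ y ∧ y < v + q) → B.Nonempty →
  (∀ d : ℕ, 1 ≤ d → d ≤ m₁ → ∀ r : ℤ, ∃ x ∈ A, x ≡ r [ZMOD d]) →
  (∀ x ∈ A, ∀ y ∈ B, x - y ∈ D) →
  min (q : ℝ) (A.card + B.card - q / m₁) ≤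
    (((Ico (u - v) (u - v + q)).filter (fun z => z ∈ D ∨ z - q ∈ D)).card : ℝ)

/-- the number of `y ∈ Y` with `y + h ∈ X` -/
def rep (X Y : Finset ℤ) (h : ℤ) : ℕ := (Y.filter (fun y => y + h ∈ X)).card

/-- **PER** almost periods of the number of representations. -/
def S_PER : Prop := ∀ κ ρ : ℝ, 0 < κ → 0 < ρ → ρ ≤ 1 → ∃ δ : ℝ, 0 < δ ∧ ∃ n₁ : ℕ, ∀ L : ℕ, n₁ ≤ L →
  ∀ X Y : Finset ℤ, X ⊆ Ico 0 (L : ℤ) → Y ⊆ Ico 0 (L : ℤ) → ∃ q : ℕ, δ * L ≤ q ∧ (q : ℝ) ≤ ρ * L ∧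
    (((Ico (-(L : ℤ)) L).filter (fun h =>
      κ * L ≤ |(rep X Y (h + q) : ℝ) - rep X Y h|)).card : ℝ) ≤ κ * L

/-- **K2** two sets. -/
def S_K2 : Prop := ∀ β ε c₁ τ : ℝ, 0 < β → β ≤ 1 → 0 < ε → 0 < c₁ → 0 < τ →
  ∃ m₀ : ℕ, 1 ≤ m₀ ∧ ∃ ω c₂ : ℝ, 0 < ω ∧ 0 < c₂ ∧ ∃ n₁ : ℕ, ∀ L T : ℕ, n₁ ≤ L → τ * L ≤ T →
    2 * T ≤ L → ∀ m w : ℕ, 1 ≤ m → m₀ ∣ m → 1 ≤ w → (w : ℝ) ≤ ω * L → ∀ X Y : Finset ℤ,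
    X ⊆ Ico 0 (L : ℤ) → Y ⊆ Ico 0 ((L : ℤ) - 2 * T) → c₁ * L ≤ (Y.card : ℝ) → Equi m w β X L →
    (min 1 ((Y.card : ℝ) / L + β) - ε) * T ≤
      (((Ico 0 (T : ℤ)).filter (fun h => c₂ * L ≤ (rep X Y h : ℝ))).card : ℝ)

/-- the number of `y ∈ Y` with `y + h j ∈ X j` for all `j` -/
def repV {k : ℕ} (X : Fin k → Finset ℤ) (Y : Finset ℤ) (h : Fin k → ℤ) : ℕ :=
  (Y.filter (fun y => ∀ j, y + h j ∈ X j)).card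

/-- **KK** `k + 1` sets. -/
def S_KK (k : ℕ) : Prop := ∀ β ε c₁ τ : ℝ, 0 < β → β ≤ 1 / 2 → 0 < ε → 0 < c₁ → 0 < τ →
  ∃ m₀ : ℕ, 1 ≤ m₀ ∧ ∃ ω c₂ : ℝ, 0 < ω ∧ 0 < c₂ ∧ ∃ n₁ : ℕ, ∀ L T : ℕ, n₁ ≤ L → τ * L ≤ T →
    2 * T ≤ L → ∀ m w : ℕ, 1 ≤ m → m₀ ∣ m → 1 ≤ w → (w : ℝ) ≤ ω * L →
    ∀ (X : Fin k → Finset ℤ) (Y : Finset ℤ), (∀ j, X j ⊆ Ico 0 (L : ℤ)) →
    Y ⊆ Ico 0 ((L : ℤ) - 2 * T) → c₁ * L ≤ (Y.card : ℝ) → (Y.card : ℝ) ≤ β * L →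
    (∀ j, Equi m w β (X j) L) →
    (β ^ k + k * β ^ (k - 1) * ((Y.card : ℝ) / L) - ε) * (T : ℝ) ^ k ≤
      (((Fintype.piFinset (fun _ : Fin k => Ico 0 (T : ℤ))).filter
        (fun h => c₂ * L ≤ (repV X Y h : ℝ))).card : ℝ)

/-- **SK** the form with cells: `L = m r l`, side of the box `T = m (r / s) l = L / s`. -/
def S_SK (k : ℕ) : Prop := ∀ β ε : ℝ, 0 < β → β ≤ 1 / 2 → 0 < ε →
  ∃ m r s : ℕ, 1 ≤ m ∧ 1 ≤ r ∧ 1 ≤ s ∧ ∃ c : ℝ, 0 < c ∧ ∃ n₁ : ℕ, ∀ l : ℕ, n₁ ≤ l →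
    ∀ X : Fin (k + 1) → Finset ℤ, (∀ j, X j ⊆ Ico 0 ((m * (r * s) * l : ℕ) : ℤ)) →
    (∀ j, ∀ a < m, ∀ b < r * s, β * l ≤
      (((range l).filter (fun t : ℕ => ((a + m * (b * l + t) : ℕ) : ℤ) ∈ X j)).card : ℝ)) →
    ((k + 1) * β ^ k - ε) * ((m * r * l : ℕ) : ℝ) ^ k ≤
      (((Fintype.piFinset (fun _ : Fin k => Ico 0 ((m * r * l : ℕ) : ℤ))).filter
        (fun h => c * ((m * (r * s) * l : ℕ) : ℝ) ≤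
          (repV (fun j : Fin k => X j.succ) (X 0) h : ℝ))).card : ℝ)

/-- the length of the progressions of level `i` -/
def Lc (m r I l i : ℕ) : ℕ := (m * r) ^ (I - i) * l

/-- the start of a progression of level `i` (difference `m ^ i`, length `Lc m r I l i`) -/
def st (m r I l i a q : ℕ) : ℕ := a + m ^ i * (Lc m r I l i * q)

/-- **CELL** the scale on which `n` sets are equidistributed in cells. -/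
def S_CELL : Prop := ∀ (n m r : ℕ), 1 ≤ m → 1 ≤ r → ∀ ε : ℝ, 0 < ε → ∃ I : ℕ, 1 ≤ I ∧ ∀ l : ℕ, 1 ≤ l →
  ∀ (Ω : Type) [DecidableEq Ω] (S : Fin n → Finset Ω) (A : Ω → Finset ℤ) (a : ℝ),
    (∀ j, (S j).Nonempty) → (∀ w, A w ⊆ Ico 0 (((m * r) ^ I * l : ℕ) : ℤ)) →
    (∀ j, a * ((m * r) ^ I * l : ℕ) * ((S j).card : ℝ) ≤ ∑ w ∈ S j, ((A w).card : ℝ)) →
    ∃ i < I, ∀ j, ∃ w ∈ S j, ∃ b < m ^ i, ∃ q < r ^ i, ∀ α < m, ∀ d < r,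
      (a - ε) * (Lc m r I l (i + 1) : ℝ) ≤ (((range (Lc m r I l (i + 1))).filter (fun t : ℕ =>
        ((st m r I l i b q + m ^ i * (α + m * (d * Lc m r I l (i + 1) + t)) : ℕ) : ℤ) ∈
          A w)).card : ℝ)

open Classical in
/-- the number of good vectors `c + N t`, `t ∈ [0, T)^k` -/
noncomputable def cnt {k : ℕ} (g : (Fin k → ℤ) → Prop) (c : Fin k → ℤ) (N T : ℕ) : ℕ :=
  ((Fintype.piFinset (fun _ : Fin k => Ico 0 (T : ℤ))).filter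
    (fun t => g (fun j => c j + N * t j))).card

open Classical in
/-- **AVG** in a box with few good vectors most subboxes have few good vectors. -/
def S_AVG : Prop := ∀ (k : ℕ) (ε : ℝ), 0 < ε → ∀ T' m' R : ℕ, 1 ≤ T' → 1 ≤ m' → ∃ T₀ : ℕ,
  ∀ T : ℕ, T₀ ≤ T → ∀ (g : (Fin k → ℤ) → Prop) (c : Fin k → ℤ) (N : ℕ) (γ lam : ℝ), 0 < lam →
    (∀ y : Fin k → ℤ, (γ - ε) * (T' : ℝ) ^ k ≤ (cnt g (fun j => c j + N * y j) (N * m') T' : ℝ)) →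
    (cnt g c N T : ℝ) ≤ (γ + ε) * (T : ℝ) ^ k →
    ∀ b : Fin k → ℤ, (∀ j, |b j| ≤ R) →
      (((Fintype.piFinset (fun _ : Fin k => Ico 0 (T : ℤ))).filter (fun y =>
        (γ + lam) * (T' : ℝ) ^ k <
          (cnt g (fun j => c j + N * (y j + b j)) (N * m') T' : ℝ))).card : ℝ) ≤
      4 * ε / lam * (T : ℝ) ^ k

/-- a test: a shift `b`, a multiplier `m` and a side `T` -/
structure Test (k : ℕ) where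
  b : Fin k → ℤ
  m : ℕ
  T : ℕ

/-- the box of the test at `z` has few good vectors -/
def Test.ok {k : ℕ} (τ : Test k) (g : (Fin k → ℤ) → Prop) (N₀ : ℕ) (γ lam : ℝ) (z : Fin k → ℤ) : Prop :=
  (cnt g (fun j => z j + N₀ * τ.b j) (N₀ * τ.m) τ.T : ℝ) ≤ (γ + lam) * (τ.T : ℝ) ^ k

/-- **CFG** the tree of windows. -/
def S_CFG : Prop := ∀ (k v Q : ℕ) (lam δ : ℝ), 1 ≤ k → 0 < lam → 0 < δ → ∃ ε : ℝ, 0 < ε ∧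
  ∀ (g : (Fin k → ℤ) → Prop) (γ : ℝ) (N : ℕ → ℕ) (tests : Fin Q → Test k), 0 ≤ γ →
    (∀ i, 1 ≤ N i) → (∀ i, N i ∣ N (i + 1)) → (∀ κ, 1 ≤ (tests κ).m ∧ 1 ≤ (tests κ).T) →
    (∀ κ, ∀ z : Fin k → ℤ, (∀ j, (N 0 : ℤ) ∣ z j) →
      (γ - ε) * ((tests κ).T : ℝ) ^ k ≤ (cnt g z (N v * (tests κ).m) (tests κ).T : ℝ)) →
    (∀ i < v, ∀ L₀ : ℕ, ∃ T ≥ L₀, ∃ c : Fin k → ℤ, (∀ j, (N i : ℤ) ∣ c j) ∧
      (cnt g c (N (i + 1)) T : ℝ) ≤ (γ + ε) * (T : ℝ) ^ k) →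
    ∀ sep : ℕ, ∃ x : Fin ((k + 1) ^ v) → ℤ, (∀ w, (N 0 : ℤ) ∣ x w) ∧
      (∀ w w', w ≠ w' → (sep : ℤ) ≤ |x w - x w'|) ∧
      ∀ f : Fin ((k + 1) ^ v) → ℝ, (∀ w, 0 ≤ f w ∧ f w ≤ 1) →
        (1 - v * δ / k) * ((k + 1) ^ v : ℕ) < ∑ w, f w →
        ∃ S : Fin (k + 1) → Finset (Fin ((k + 1) ^ v)), (∀ j, (S j).Nonempty) ∧
          (∀ j j', j ≠ j' → Disjoint (S j) (S j')) ∧
          (∀ j, ((∑ w, f w) / ((k + 1) ^ v : ℕ) - δ) * ((S j).card : ℝ) ≤ ∑ w ∈ S j, f w) ∧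
          ∀ w : Fin (k + 1) → Fin ((k + 1) ^ v), (∀ j, w j ∈ S j) → ∀ κ,
            (tests κ).ok g (N v) γ lam (fun j => x (w j.succ) - x (w 0))

/-- the input: almost cliques of density `ρ` in every large set of multiples of `M₀` -/
def CL (k : ℕ) (g : (Fin k → ℤ) → Prop) (ρ : ℝ) : Prop := ∀ ε : ℝ, 0 < ε → ∃ M₀ n₀ : ℕ, 1 ≤ M₀ ∧
  ∀ V : Finset ℤ, (∀ x ∈ V, (M₀ : ℤ) ∣ x) → n₀ ≤ V.card → ∃ A ⊆ V,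
    (ρ - ε) * (V.card : ℝ) ≤ A.card ∧
    (Set.ncard {y : Fin (k + 1) → ℤ | (∀ i, y i ∈ A) ∧ Function.Injective y ∧
      ¬ g (fun j => y j.succ - y 0)} : ℝ) ≤ ε * (V.card : ℝ) ^ (k + 1)

/-- **MAIN** -/
def S_MAIN : Prop := ∀ (k : ℕ) (g : (Fin k → ℤ) → Prop) (ρ : ℝ), 1 ≤ k → 0 < ρ → ρ ≤ 1 / 2 → CL k g ρ →
  ∀ ε : ℝ, 0 < ε → ∃ M : ℕ, 1 ≤ M ∧ ∀ N : ℕ, 1 ≤ N → M ∣ N → ∃ L : ℕ, ∀ T : ℕ, L ≤ T →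
    ∀ c : Fin k → ℤ, (∀ j, (M : ℤ) ∣ c j) →
      ((k + 1) * ρ ^ k - ε) * (T : ℝ) ^ k ≤ (cnt g c N T : ℝ)

end Pool.Agent.N646.BX
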