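import Pool.Agent.N646.BX.Cfu

/-! Project BX: the tree of windows, all levels. -/

set_option autoImplicit false

namespace Pool.Agent.N646.BX

open Finset

theorem dvd_of_le {N : ℕ → ℕ} (h : ∀ i, N i ∣ N (i + 1)) {i j : ℕ} (hij : i ≤ j) : N i ∣ N j := by
  induction j, hij using Nat.le_induction with
  | base => exact dvd_rfl
  | succ j _ ih => exact ih.trans (h j)

/-- the statement after `n` levels -/
def Lvl (k n : ℕ) (N₀ : ℕ) (OK : (Fin k → ℤ) → Prop) (sep : ℕ) (δ : ℝ) : Prop :=
  ∃ (Ω : Type) (_ : Fintype Ω) (_ : DecidableEq Ω) (x : Ω → ℤ), Fintype.card Ω = (k + 1) ^ n ∧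
    (∀ w, (N₀ : ℤ) ∣ x w) ∧ (∀ w w', w ≠ w' → (sep : ℤ) ≤ |x w - x w'|) ∧
    TP k Ω x OK (1 - n * δ / k) δ

theorem cfg (hAVG : S_AVG) : S_CFG := by
  intro k v Q lam δ hk hlam hδ
  set Z : ℝ := (((k + 1) ^ v : ℕ) : ℝ) ^ (k + 1) * Q + 1 with hZ
  have hZ0 : 0 < Z := by positivity
  set ε : ℝ := lam / (16 * Z) with hε
  have hε0 : 0 < ε := by positivity
  refine ⟨ε, hε0, ?_⟩
  intro g γ N tests _ hN1 hNd htests hlow hext sep
  have hkR : (0 : ℝ) < k := by exact_mod_cast hk
  have key : ∀ n, n ≤ v → Lvl k n (N (v - n)) (fun z => ∀ κ, (tests κ).ok g (N v) γ lam z) sep δ := by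
    intro n
    induction n with
    | zero =>
      intro _
      refine ⟨Unit, inferInstance, inferInstance, fun _ => 0, by simp, fun _ => dvd_zero _, ?_, ?_⟩
      · intro w w' h
        exact absurd (Subsingleton.elim w w') h
      · intro f hf hs
        exfalso
        have := (hf ()).2
        simp at hs
        linarith
    | succ n ih =>
      intro hn
      obtain ⟨Ω, i1, i2, x, hc, hx, hsep, htp⟩ := ih (by omega)
      have hne : Nonempty Ω := by
        rw [← Fintype.card_pos_iff, hc]
        positivity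
      obtain ⟨M', hM'⟩ := dvd_of_le hNd (show v - n ≤ v by omega)
      have hM'1 : 1 ≤ M' := by
        rcases Nat.eq_zero_or_pos M' with h | h
        · rw [h, Nat.mul_zero] at hM'
          have := hN1 v
          omega
        · exact h
      have hi : v - (n + 1) + 1 = v - n := by omega
      have hsmall : (Fintype.card Ω : ℝ) ^ (k + 1) * Q * (4 * ε / lam) ≤ 1 / 4 := by
        have h1 : (Fintype.card Ω : ℝ) ≤ (((k + 1) ^ v : ℕ) : ℝ) := by
          rw [hc]
          exact_mod_cast Nat.pow_le_pow_right (by omega) (by omega)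
        have h2 : (Fintype.card Ω : ℝ) ^ (k + 1) * Q ≤ Z := by
          calc (Fintype.card Ω : ℝ) ^ (k + 1) * Q ≤ (((k + 1) ^ v : ℕ) : ℝ) ^ (k + 1) * Q :=
                mul_le_mul_of_nonneg_right (pow_le_pow_left₀ (Nat.cast_nonneg _) h1 _)
                  (Nat.cast_nonneg _)
            _ ≤ Z := by rw [hZ]; linarith
        have h3 : 4 * ε / lam = 1 / (4 * Z) := by
          rw [hε]; field_simp; norm_num
        rw [h3]
        calc (Fintype.card Ω : ℝ) ^ (k + 1) * Q * (1 / (4 * Z)) ≤ Z * (1 / (4 * Z)) :=
              mul_le_mul_of_nonneg_right h2 (by positivity)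
          _ = 1 / 4 := by field_simp
      obtain ⟨u, hu1, hu2, hu3⟩ := choose_u hAVG k Ω x Q tests lam ε hlam hε0 hsmall g γ (N 0)
        (N (v - (n + 1))) (N (v - n)) M' (hN1 _) hM'1 (dvd_of_le hNd (Nat.zero_le _))
        (dvd_of_le hNd (by omega)) hx htests (by
          intro κ z hz
          have := hlow κ z hz
          rw [hM'] at this
          exact this) (by
          intro L₀
          obtain ⟨T, hT, c, hc1, hc2⟩ := hext (v - (n + 1)) (by omega) L₀
          rw [hi] at hc2
          exact ⟨T, hT, c, hc1, hc2⟩) sep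
      refine ⟨Ω × Fin (k + 1), inferInstance, inferInstance, fun p => x p.1 + uu u p.2, ?_, ?_, ?_, ?_⟩
      · rw [Fintype.card_prod, hc, Fintype.card_fin, pow_succ]
      · intro w
        apply dvd_add
        · exact (Int.natCast_dvd_natCast.2 (dvd_of_le hNd (by omega))).trans (hx w.1)
        · rcases Fin.eq_zero_or_eq_succ w.2 with h | ⟨j, h⟩
          · rw [h, uu_zero]; exact dvd_zero _
          · rw [h, uu_succ]; exact hu1 j
      · rintro ⟨w, j⟩ ⟨w', j'⟩ hne'
        simp only []
        by_cases hj : j = j'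
        · subst hj
          have hww : w ≠ w' := fun h => hne' (by rw [h])
          have := hsep w w' hww
          convert this using 2
          ring
        · have := hu2 j j' hj w w'
          convert this using 2
          ring
      · have h1 := tp_step k hk Ω x _ _ δ hδ htp (uu u) (uu_zero u) (by
          intro w κ
          have := hu3 w κ
          rw [← hM'] at this
          exact this)
        have h2 : (1 : ℝ) - ((n + 1 : ℕ) : ℝ) * δ / k = 1 - n * δ / k - δ / k := by
          push_cast; ring
        rw [h2]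
        exact h1
  obtain ⟨Ω, i1, i2, x, hc, hx, hsep, htp⟩ := key v le_rfl
  rw [Nat.sub_self] at hx
  set E : Ω ≃ Fin ((k + 1) ^ v) := Fintype.equivFinOfCardEq hc with hE
  refine ⟨fun w => x (E.symm w), fun w => hx _, ?_, ?_⟩
  · intro w w' h
    exact hsep _ _ (fun h' => h (E.symm.injective h'))
  · intro f hf hs
    obtain ⟨S, h1, h2, h3, h4⟩ := htp (fun w => f (E w)) (fun w => hf _) (by
      rw [hc]
      rw [Equiv.sum_comp E f]
      exact hs)
    refine ⟨fun j => (S j).map E.toEmbedding, ?_, ?_, ?_, ?_⟩
    · intro j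
      rw [map_nonempty]
      exact h1 j
    · intro j j' hjj
      rw [disjoint_map]
      exact h2 j j' hjj
    · intro j
      rw [card_map, sum_map]
      have := h3 j
      rw [hc, Equiv.sum_comp E f] at this
      exact this
    · intro w hw κ
      have := h4 (fun j => E.symm (w j)) (fun j => by
        have h5 := hw j
        rw [mem_map_equiv] at h5
        exact h5) κ
      exact this

end Pool.Agent.N646.BX
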