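import Pool.Agent.N646.BX.Stm
import Pool.Agent.N646.AC.Bfin

/-! Project BX: the almost cliques for the primes. -/

set_option autoImplicit false

namespace Pool.Agent.N646.BX

open Finset Filter Topology
open Pool.Agent.N646.AC
open Pool.Agent.Y827.RO
open Pool.Agent.Y827.HD

/-- all patterns of primes and composites occur often for the shifts `0, h_1, …, h_k` -/
def GoodC (k C : ℕ) (h : Fin k → ℤ) : Prop :=
  ∃ᶠ N : ℕ in atTop, ∀ J : Finset (Fin (k + 1)), (N : ℝ) / (Real.log N) ^ C ≤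
    (((Icc 1 N).filter (fun n : ℕ => ∀ i, ((n : ℤ) + (Fin.cons 0 h : Fin (k + 1) → ℤ) i).toNat.Prime ↔
      i ∈ J)).card : ℝ)

/-- the input with one `ε` -/
def CLe (k : ℕ) (g : (Fin k → ℤ) → Prop) (ρ ε : ℝ) : Prop := ∃ M₀ n₀ : ℕ, 1 ≤ M₀ ∧
  ∀ V : Finset ℤ, (∀ x ∈ V, (M₀ : ℤ) ∣ x) → n₀ ≤ V.card → ∃ A ⊆ V,
    (ρ - ε) * (V.card : ℝ) ≤ A.card ∧
    (Set.ncard {y : Fin (k + 1) → ℤ | (∀ i, y i ∈ A) ∧ Function.Injective y ∧
      ¬ g (fun j => y j.succ - y 0)} : ℝ) ≤ ε * (V.card : ℝ) ^ (k + 1)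

theorem growth (C : ℕ) (B : ℕ) : ∀ᶠ N : ℕ in atTop,
    ((N + B : ℕ) : ℝ) / (Real.log ((N + B : ℕ) : ℝ)) ^ (C + 1) ≤ (N : ℝ) / (Real.log N) ^ C - B := by
  have hlog : Tendsto (fun N : ℕ => Real.log (N : ℝ)) atTop atTop :=
    Real.tendsto_log_atTop.comp tendsto_natCast_atTop_atTop
  have hsmall : ∀ᶠ N : ℕ in atTop, (B : ℝ) * (Real.log N) ^ C ≤ (N : ℝ) / 4 := by
    have h1 : Tendsto (fun N : ℕ => (Real.log (N : ℝ)) ^ C / (N : ℝ)) atTop (𝓝 0) := by
      have h2 := (Real.isLittleO_pow_log_id_atTop (n := C)).tendsto_div_nhds_zero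
      exact h2.comp tendsto_natCast_atTop_atTop
    have h3 : Tendsto (fun N : ℕ => (B : ℝ) * ((Real.log (N : ℝ)) ^ C / (N : ℝ))) atTop (𝓝 0) := by
      simpa using h1.const_mul (B : ℝ)
    filter_upwards [h3.eventually (gt_mem_nhds (by norm_num : (0 : ℝ) < 1 / 4)),
      eventually_gt_atTop 0] with N h4 h5
    have h6 : (0 : ℝ) < N := by exact_mod_cast h5
    have h7 : (B : ℝ) * (Real.log N) ^ C / N < 1 / 4 := by
      rw [mul_div_assoc]; exact h4
    rw [div_lt_iff₀ h6] at h7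
    linarith
  filter_upwards [hsmall, hlog.eventually_ge_atTop 4, eventually_ge_atTop (B + 1)] with N h1 h2 h3
  have hN : (0 : ℝ) < N := by
    have : 0 < N := by omega
    exact_mod_cast this
  have hl : (0 : ℝ) < (Real.log N) ^ C := by positivity
  have hmono : Real.log N ≤ Real.log ((N + B : ℕ) : ℝ) := by
    apply Real.log_le_log hN
    push_cast
    have : (0 : ℝ) ≤ B := Nat.cast_nonneg _
    linarith
  have h4 : (Real.log N) ^ (C + 1) ≤ (Real.log ((N + B : ℕ) : ℝ)) ^ (C + 1) :=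
    pow_le_pow_left₀ (by linarith) hmono _
  have h5 : ((N + B : ℕ) : ℝ) ≤ 2 * N := by
    push_cast
    have : (B : ℝ) ≤ N := by exact_mod_cast (by omega : B ≤ N)
    linarith
  calc ((N + B : ℕ) : ℝ) / (Real.log ((N + B : ℕ) : ℝ)) ^ (C + 1)
      ≤ (2 * N) / (Real.log N) ^ (C + 1) := by
        apply div_le_div₀ (by positivity) h5 (by positivity) h4
    _ ≤ (2 * N) / (4 * (Real.log N) ^ C) := by
        apply div_le_div_of_nonneg_left (by positivity) (by positivity)
        rw [pow_succ, mul_comm]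
        exact mul_le_mul_of_nonneg_left h2 hl.le
    _ = (N : ℝ) / (Real.log N) ^ C - (N : ℝ) / (Real.log N) ^ C / 2 := by
        field_simp; ring
    _ ≤ (N : ℝ) / (Real.log N) ^ C - B := by
        have h6 : (B : ℝ) ≤ (N : ℝ) / (Real.log N) ^ C / 2 := by
          rw [div_div, le_div_iff₀ (by positivity)]
          nlinarith
        linarith

theorem good_of_freq {k C : ℕ} {y : Fin (k + 1) → ℤ}
    (h : ∃ᶠ N : ℕ in atTop, AllP C N (fun i => ((1 : ℤ), y i))) :
    GoodC k (C + 1) (fun j => y j.succ - y 0) := by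
  unfold GoodC
  set B : ℕ := (y 0).natAbs with hB
  have h1 : ∃ᶠ N : ℕ in atTop, AllP C N (fun i => ((1 : ℤ), y i)) ∧
      ((N + B : ℕ) : ℝ) / (Real.log ((N + B : ℕ) : ℝ)) ^ (C + 1) ≤ (N : ℝ) / (Real.log N) ^ C - B :=
    h.and_eventually (growth C B)
  refine (tendsto_add_atTop_nat B).frequently (h1.mono ?_)
  rintro N ⟨hN, hgr⟩ J
  refine hgr.trans ?_
  have h2 := hN J
  have h3 : (pat (fun i => ((1 : ℤ), y i)) J N : ℝ) ≤
      (((Icc 1 (N + B)).filter (fun n : ℕ => ∀ i, ((n : ℤ) +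
        (Fin.cons 0 (fun j : Fin k => y j.succ - y 0) : Fin (k + 1) → ℤ) i).toNat.Prime ↔
      i ∈ J)).card : ℝ) + B := by
    unfold pat
    have h4 : (Icc 1 N).filter (fun n : ℕ => ∀ i, (((1 : ℤ)) * (n : ℤ) + y i).toNat.Prime ↔ i ∈ J) ⊆
        (Icc 1 B) ∪ ((Icc (B + 1) N).filter (fun n : ℕ => ∀ i,
          (((1 : ℤ)) * (n : ℤ) + y i).toNat.Prime ↔ i ∈ J)) := by
      intro n hn
      rw [mem_filter, mem_Icc] at hn
      rw [mem_union, mem_Icc, mem_filter, mem_Icc]
      by_cases hnB : n ≤ B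
      · exact Or.inl ⟨hn.1.1, hnB⟩
      · exact Or.inr ⟨⟨by omega, hn.1.2⟩, hn.2⟩
    have h5 : ((Icc (B + 1) N).filter (fun n : ℕ => ∀ i,
          (((1 : ℤ)) * (n : ℤ) + y i).toNat.Prime ↔ i ∈ J)).card ≤
        ((Icc 1 (N + B)).filter (fun n : ℕ => ∀ i, ((n : ℤ) +
        (Fin.cons 0 (fun j : Fin k => y j.succ - y 0) : Fin (k + 1) → ℤ) i).toNat.Prime ↔
      i ∈ J)).card := by
      apply card_le_card_of_injOn (fun n : ℕ => ((n : ℤ) + y 0).toNat)
      · intro n hn
        rw [mem_coe, mem_filter, mem_Icc] at hn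
        rw [mem_coe, mem_filter, mem_Icc]
        obtain ⟨⟨hn1, hn2⟩, hn3⟩ := hn
        have hpos : 1 ≤ (n : ℤ) + y 0 := by omega
        refine ⟨⟨by show 1 ≤ ((n : ℤ) + y 0).toNat; omega,
          by show ((n : ℤ) + y 0).toNat ≤ N + B; omega⟩, fun i => ?_⟩
        show ((((n : ℤ) + y 0).toNat : ℕ) + (Fin.cons 0 (fun j : Fin k => y j.succ - y 0) :
          Fin (k + 1) → ℤ) i : ℤ).toNat.Prime ↔ i ∈ J
        rw [Int.toNat_of_nonneg (by omega)]
        have := hn3 i
        rcases Fin.eq_zero_or_eq_succ i with h0 | ⟨j, hj⟩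
        · subst h0
          rw [Fin.cons_zero, add_zero]
          rw [one_mul] at this
          exact this
        · subst hj
          rw [Fin.cons_succ]
          rw [one_mul] at this
          convert this using 3
          ring
      · intro a ha b hb hab
        rw [mem_coe, mem_filter, mem_Icc] at ha hb
        have hab' : ((a : ℤ) + y 0).toNat = ((b : ℤ) + y 0).toNat := hab
        omega
    have h6 := (card_le_card h4).trans (card_union_le _ _)
    rw [Nat.card_Icc] at h6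
    have h7 : ((Icc 1 N).filter (fun n : ℕ => ∀ i, (((1 : ℤ)) * (n : ℤ) + y i).toNat.Prime ↔
        i ∈ J)).card ≤ ((Icc 1 (N + B)).filter (fun n : ℕ => ∀ i, ((n : ℤ) +
        (Fin.cons 0 (fun j : Fin k => y j.succ - y 0) : Fin (k + 1) → ℤ) i).toNat.Prime ↔
      i ∈ J)).card + B := by omega
    exact_mod_cast h7
  linarith

/-- **the almost cliques** -/
theorem cle (k : ℕ) (ε : ℝ) (hε : 0 < ε) : ∃ C : ℕ, CLe k (GoodC k C) (5 / 18) ε := by
  classical
  set e : ℝ := min (ε / 2) (1 / 18) with he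
  have he0 : 0 < e := lt_min (by linarith) (by norm_num)
  have he1 : e ≤ ε / 2 := min_le_left _ _
  have he2 : e ≤ 1 / 18 := min_le_right _ _
  obtain ⟨z, n₀, C, m, hm, h, -⟩ := covF k e he0
  refine ⟨C + 1, z.factorial, n₀, Nat.factorial_pos z, ?_⟩
  intro V hV hn
  have hinj : Function.Injective (fun x : ℤ => ((1 : ℤ), x)) := fun a b h => (Prod.mk.inj h).2
  set V' : Finset (ℤ × ℤ) := V.image (fun x => ((1 : ℤ), x)) with hV'
  have hVc : V'.card = V.card := card_image_of_injective _ hinj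
  obtain ⟨U, G, h1, h2, h3⟩ := h V' (by
    intro f hf
    obtain ⟨x, _, rfl⟩ := mem_image.1 hf
    exact ⟨one_pos, isCoprime_one_left⟩) (by
    intro p hpz hp
    refine ⟨1, fun f hf hd => ?_⟩
    obtain ⟨x, hx, rfl⟩ := mem_image.1 hf
    have h4 : (p : ℤ) ∣ x := by
      refine dvd_trans ?_ (hV x hx)
      exact Int.natCast_dvd_natCast.2 (Nat.dvd_factorial hp.pos hpz)
    have h5 : (p : ℤ) ∣ 1 := by
      have := dvd_sub hd h4
      simpa using this
    exact hp.one_lt.ne' (by exact_mod_cast Int.eq_one_of_dvd_one (by positivity) h5)) (by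
    rw [hVc]; exact hn)
  have h4 := sum_rare V' U (fun j => (h1 j).1) (5 / 18 - e) e (by linarith) h2
  have hmR : (0 : ℝ) < m := by exact_mod_cast hm
  obtain ⟨j, hj⟩ : ∃ j, (5 / 18 - ε) * (V.card : ℝ) ≤ ((U j).card : ℝ) := by
    by_contra hno
    push Not at hno
    have hne : (univ : Finset (Fin m)).Nonempty := ⟨⟨0, hm⟩, mem_univ _⟩
    have h5 : ∑ j, ((U j).card : ℝ) < ∑ _j : Fin m, (5 / 18 - ε) * (V.card : ℝ) :=
      sum_lt_sum_of_nonempty hne fun j _ => hno j
    rw [sum_const, card_univ, Fintype.card_fin, nsmul_eq_mul] at h5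
    rw [hVc] at h4
    have h6 : (5 / 18 - ε) * (V.card : ℝ) ≤ (5 / 18 - e) * ((1 - e) * V.card) := by
      have : (0 : ℝ) ≤ V.card := Nat.cast_nonneg _
      have h7 : (5 : ℝ) / 18 - ε ≤ (5 / 18 - e) * (1 - e) := by nlinarith
      calc (5 / 18 - ε) * (V.card : ℝ) ≤ ((5 / 18 - e) * (1 - e)) * V.card :=
            mul_le_mul_of_nonneg_right h7 this
        _ = _ := by ring
    have h8 := mul_le_mul_of_nonneg_left h6 hmR.le
    have h9 : (5 / 18 - e) * m * ((1 - e) * V.card) = m * ((5 / 18 - e) * ((1 - e) * V.card)) := by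
      ring
    linarith
  have hUj : ∀ f ∈ U j, f.1 = 1 := by
    intro f hf
    obtain ⟨x, _, rfl⟩ := mem_image.1 ((h1 j).1 hf)
    rfl
  refine ⟨(U j).image Prod.snd, ?_, ?_, ?_⟩
  · intro x hx
    obtain ⟨f, hf, rfl⟩ := mem_image.1 hx
    obtain ⟨y, hy, rfl⟩ := mem_image.1 ((h1 j).1 hf)
    exact hy
  · have : ((U j).image Prod.snd).card = (U j).card := by
      apply card_image_of_injOn
      intro a ha b hb hab
      exact Prod.ext ((hUj a ha).trans (hUj b hb).symm) hab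
    rw [this]
    exact hj
  · have h5 : Set.ncard {y : Fin (k + 1) → ℤ | (∀ i, y i ∈ (U j).image Prod.snd) ∧
        Function.Injective y ∧ ¬ GoodC k (C + 1) (fun j => y j.succ - y 0)} ≤
        (exc (U j) (fun f => f ∈ G)).card := by
      rw [← Set.ncard_coe_finset]
      refine Set.ncard_le_ncard_of_injOn (fun y i => ((1 : ℤ), y i)) ?_ ?_ (Set.toFinite _)
      · rintro y ⟨hy1, hy2, hy3⟩
        rw [mem_coe, mem_exc]
        refine ⟨fun i => ?_, fun a b hab => hy2 (hinj hab), fun hG => hy3 ?_⟩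
        · obtain ⟨f, hf, hfy⟩ := mem_image.1 (hy1 i)
          have : f = ((1 : ℤ), y i) := Prod.ext (hUj f hf) hfy
          rw [← this]
          exact hf
        · exact good_of_freq (h3.mono fun N hN => hN _ hG)
      · intro a _ b _ hab
        funext i
        exact hinj (congrFun hab i)
    calc (Set.ncard {y : Fin (k + 1) → ℤ | (∀ i, y i ∈ (U j).image Prod.snd) ∧
        Function.Injective y ∧ ¬ GoodC k (C + 1) (fun j => y j.succ - y 0)} : ℝ) ≤
        ((exc (U j) (fun f => f ∈ G)).card : ℝ) := by exact_mod_cast h5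
      _ ≤ e * ((U j).card : ℝ) ^ (k + 1) := (h1 j).2
      _ ≤ ε * (V.card : ℝ) ^ (k + 1) := by
          have h6 : ((U j).card : ℝ) ≤ V.card := by
            rw [← hVc]; exact_mod_cast card_le_card (h1 j).1
          exact mul_le_mul (by linarith) (pow_le_pow_left₀ (Nat.cast_nonneg _) h6 _)
            (by positivity) hε.le

end Pool.Agent.N646.BX
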