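import Pool.Agent.N646.BX.Mai
import Pool.Agent.N646.BX.Cfn
import Pool.Agent.N646.BX.Pri
import Pool.Agent.N195.BX_KW
import Pool.Agent.N624.BX_PER
import Pool.Agent.N348.BX_K2
import Pool.Agent.N519.BX_KK
import Pool.Agent.N833.BX_SK
import Pool.Agent.N134.BX_CELL
import Pool.Agent.N498.BX_AVG

/-! Project BX: the assembly. -/

set_option autoImplicit false

namespace Pool.Agent.N646.BX

theorem sK2 : S_K2 := Pool.Agent.N348.BX.main Pool.Agent.N195.BX_KW.main Pool.Agent.N624.BXPER.main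

theorem sSK : ∀ k, S_SK k := Pool.Agent.N833.BX.main (Pool.Agent.N519.BXKK.main sK2)

theorem sCFG : S_CFG := cfg Pool.Agent.N498.BXA.main

/-- **MAIN** for an abstract notion of good vectors with one almost clique parameter. -/
theorem box_main (k : ℕ) (hk : 1 ≤ k) (ρ : ℝ) (hρ0 : 0 < ρ) (hρ : ρ ≤ 1 / 2) (ε : ℝ) (hε : 0 < ε) :
    ∃ ε' : ℝ, 0 < ε' ∧ ∀ g : (Fin k → ℤ) → Prop, CLe k g ρ ε' → ∃ M : ℕ, 1 ≤ M ∧
      ∀ N : ℕ, 1 ≤ N → M ∣ N → ∃ L : ℕ, ∀ T : ℕ, L ≤ T → ∀ c : Fin k → ℤ, (∀ j, (M : ℤ) ∣ c j) →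
        ((k + 1) * ρ ^ k - ε) * (T : ℝ) ^ k ≤ (cnt g c N T : ℝ) := by
  exact main_thm Pool.Agent.N134.BXCell.main sSK sCFG k hk ρ hρ0 hρ ε hε

/-- the box theorem for the primes -/
theorem box_primes (k : ℕ) (hk : 1 ≤ k) (ε : ℝ) (hε : 0 < ε) :
    ∃ C M : ℕ, 1 ≤ M ∧ ∀ N : ℕ, 1 ≤ N → M ∣ N → ∃ L : ℕ, ∀ T : ℕ, L ≤ T →
      ∀ c : Fin k → ℤ, (∀ j, (M : ℤ) ∣ c j) →
        ((k + 1) * (5 / 18 : ℝ) ^ k - ε) * (T : ℝ) ^ k ≤ (cnt (GoodC k C) c N T : ℝ) := by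
  obtain ⟨ε', hε', h⟩ := box_main k hk (5 / 18) (by norm_num) (by norm_num) ε hε
  obtain ⟨C, hC⟩ := cle k ε' hε'
  obtain ⟨M, hM, hM'⟩ := h _ hC
  exact ⟨C, M, hM, hM'⟩

end Pool.Agent.N646.BX
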