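import Pool.Agent.N646.BX.Stm

/-! Project BX: the tree of windows. -/

set_option autoImplicit false

namespace Pool.Agent.N646.BX

open Finset

/-- the tree property -/
def TP (k : ℕ) (Ω : Type) [Fintype Ω] [DecidableEq Ω] (x : Ω → ℤ) (OK : (Fin k → ℤ) → Prop)
    (thr δ : ℝ) : Prop :=
  ∀ f : Ω → ℝ, (∀ w, 0 ≤ f w ∧ f w ≤ 1) → thr * (Fintype.card Ω : ℝ) < ∑ w, f w →
    ∃ S : Fin (k + 1) → Finset Ω, (∀ j, (S j).Nonempty) ∧
      (∀ j j', j ≠ j' → Disjoint (S j) (S j')) ∧
      (∀ j, ((∑ w, f w) / (Fintype.card Ω : ℝ) - δ) * ((S j).card : ℝ) ≤ ∑ w ∈ S j, f w) ∧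
      ∀ w : Fin (k + 1) → Ω, (∀ j, w j ∈ S j) → OK (fun j => x (w j.succ) - x (w 0))

/-- one more level -/
theorem tp_step (k : ℕ) (hk : 1 ≤ k) (Ω : Type) [Fintype Ω] [DecidableEq Ω] [Nonempty Ω] (x : Ω → ℤ)
    (OK : (Fin k → ℤ) → Prop) (thr δ : ℝ) (hδ : 0 < δ) (h : TP k Ω x OK thr δ)
    (u : Fin (k + 1) → ℤ) (hu0 : u 0 = 0)
    (hu : ∀ w : Fin (k + 1) → Ω, OK (fun j => x (w j.succ) + u j.succ - x (w 0))) :
    TP k (Ω × Fin (k + 1)) (fun p => x p.1 + u p.2) OK (thr - δ / k) δ := by
  intro f hf hsum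
  have hkR : (0 : ℝ) < k := by exact_mod_cast hk
  set n : ℝ := (Fintype.card Ω : ℝ) with hn
  have hn0 : 0 < n := by rw [hn]; exact_mod_cast Fintype.card_pos
  have hcard : (Fintype.card (Ω × Fin (k + 1)) : ℝ) = n * (k + 1) := by
    rw [Fintype.card_prod, Fintype.card_fin]; push_cast; rfl
  set F : Fin (k + 1) → ℝ := fun j => ∑ w, f (w, j) with hF
  have hFs : ∑ p : Ω × Fin (k + 1), f p = ∑ j, F j := by
    rw [Fintype.sum_prod_type]
    rw [sum_comm]
  rw [hcard] at hsum ⊢
  rw [hFs] at hsum ⊢
  set a : ℝ := (∑ j, F j) / (n * (k + 1)) with ha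
  have hkk : (0 : ℝ) < (k : ℝ) + 1 := by positivity
  have haF : ∑ j, F j = a * (n * (k + 1)) := by
    rw [ha]; field_simp
  by_cases hall : ∀ j, (a - δ) * n ≤ F j
  · refine ⟨fun j => univ ×ˢ {j}, ?_, ?_, ?_, ?_⟩
    · intro j
      exact univ_nonempty.product (singleton_nonempty j)
    · intro j j' hjj
      rw [disjoint_left]
      intro p hp hp'
      rw [mem_product, mem_singleton] at hp hp'
      exact hjj (hp.2.symm.trans hp'.2)
    · intro j
      rw [sum_product, card_product, card_singleton, mul_one, card_univ]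
      simp only [sum_singleton]
      exact hall j
    · intro w hw
      have hw' : ∀ j, (w j).2 = j := by
        intro j
        have := hw j
        rw [mem_product, mem_singleton] at this
        exact this.2
      have := hu (fun j => (w j).1)
      convert this using 2
      simp only [hw', hu0]
      ring
  · push Not at hall
    obtain ⟨j₁, hj₁⟩ := hall
    -- another child has a larger average
    have h2 : ∃ j₂, (a + δ / k) * n < F j₂ := by
      by_contra hno
      push Not at hno
      have h3 : ∑ j ∈ univ.erase j₁, F j ≤ ∑ j ∈ univ.erase j₁, (a + δ / k) * n :=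
        sum_le_sum fun j _ => hno j
      rw [sum_const, card_erase_of_mem (mem_univ _), card_univ, Fintype.card_fin,
        Nat.add_sub_cancel, nsmul_eq_mul] at h3
      have h4 : ∑ j, F j = F j₁ + ∑ j ∈ univ.erase j₁, F j :=
        (add_sum_erase univ F (mem_univ j₁)).symm
      have h5 : (k : ℝ) * ((a + δ / k) * n) = (k * a + δ) * n := by field_simp
      rw [h5] at h3
      nlinarith
    obtain ⟨j₂, hj₂⟩ := h2
    have hthr : thr * n < F j₂ := by
      have h3 : thr - δ / k < a := by
        rw [haF] at hsum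
        have h4 : 0 < n * ((k : ℝ) + 1) := by positivity
        exact lt_of_mul_lt_mul_right hsum h4.le
      nlinarith
    obtain ⟨S, hS1, hS2, hS3, hS4⟩ := h (fun w => f (w, j₂)) (fun w => hf _) hthr
    refine ⟨fun j => (S j) ×ˢ {j₂}, ?_, ?_, ?_, ?_⟩
    · intro j
      exact (hS1 j).product (singleton_nonempty j₂)
    · intro j j' hjj
      rw [disjoint_left]
      intro p hp hp'
      rw [mem_product] at hp hp'
      exact (disjoint_left.1 (hS2 j j' hjj)) hp.1 hp'.1
    · intro j
      rw [sum_product, card_product, card_singleton, mul_one]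
      simp only [sum_singleton]
      refine le_trans ?_ (hS3 j)
      apply mul_le_mul_of_nonneg_right _ (Nat.cast_nonneg _)
      have h3 : a ≤ F j₂ / n := by
        rw [le_div_iff₀ hn0]
        have : 0 < δ / k * n := by positivity
        nlinarith
      linarith
    · intro w hw
      have hw' : ∀ j, (w j).1 ∈ S j ∧ (w j).2 = j₂ := by
        intro j
        have := hw j
        rw [mem_product, mem_singleton] at this
        exact this
      have := hS4 (fun j => (w j).1) (fun j => (hw' j).1)
      convert this using 2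
      simp only [(hw' _).2]
      ring

end Pool.Agent.N646.BX
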