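import Pool.Agent.N646.BX.Cfg
import Pool.Agent.N646.AC.Samp

/-! Project BX: the choice of the position of the next level. -/

set_option autoImplicit false

namespace Pool.Agent.N646.BX

open Finset

theorem cardV (T : ℕ) : (Ico 0 (T : ℤ)).card = T := by simp

/-- counting on lines -/
theorem line_count {k : ℕ} (T R : ℕ) (i : Fin k) (P : (Fin k → ℤ) → Prop) [DecidablePred P]
    (h : ∀ y : Fin k → ℤ, ((Ico 0 (T : ℤ)).filter (fun t => P (Function.update y i t))).card ≤ R) :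
    (T : ℝ) * (((Fintype.piFinset (fun _ : Fin k => Ico 0 (T : ℤ))).filter P).card : ℝ) ≤
      R * (T : ℝ) ^ k := by
  have h1 := Pool.Agent.N646.AC.sum_update (Ico 0 (T : ℤ)) i (fun y => if P y then (1 : ℝ) else 0)
  rw [cardV] at h1
  have h2 : ∑ y ∈ Fintype.piFinset (fun _ : Fin k => Ico 0 (T : ℤ)), (if P y then (1 : ℝ) else 0) =
      (((Fintype.piFinset (fun _ : Fin k => Ico 0 (T : ℤ))).filter P).card : ℝ) := by
    rw [← sum_filter, sum_const, nsmul_eq_mul, mul_one]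
  rw [← h2, ← h1]
  have h3 : ∀ y ∈ Fintype.piFinset (fun _ : Fin k => Ico 0 (T : ℤ)),
      ∑ t ∈ Ico 0 (T : ℤ), (if P (Function.update y i t) then (1 : ℝ) else 0) ≤ R := by
    intro y _
    rw [← sum_filter, sum_const, nsmul_eq_mul, mul_one]
    exact_mod_cast h y
  refine (sum_le_sum h3).trans ?_
  rw [sum_const, Fintype.card_piFinset, prod_const, card_univ, Fintype.card_fin, cardV, nsmul_eq_mul]
  push_cast
  rw [mul_comm]

theorem line_few (V : Finset ℤ) (N sep : ℕ) (hN : 1 ≤ N) (C : ℤ) :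
    (V.filter (fun t : ℤ => |(N : ℤ) * t + C| < sep)).card ≤ 2 * sep := by
  have h1 : (V.filter (fun t : ℤ => |(N : ℤ) * t + C| < sep)).card ≤ (Ico (-(sep : ℤ)) sep).card := by
    apply card_le_card_of_injOn (fun t => (N : ℤ) * t + C)
    · intro t ht
      have h := (mem_filter.1 ht).2
      rw [abs_lt] at h
      exact mem_Ico.2 ⟨h.1.le, h.2⟩
    · intro a _ b _ hab
      have hab' : (N : ℤ) * a + C = (N : ℤ) * b + C := hab
      have hN' : (N : ℤ) ≠ 0 := by exact_mod_cast (by omega : N ≠ 0)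
      exact mul_left_cancel₀ hN' (by linarith)
  refine h1.trans ?_
  simp
  omega

/-- the position of child `j` -/
def uu {k : ℕ} (u : Fin k → ℤ) : Fin (k + 1) → ℤ := Fin.cons 0 u

theorem uu_zero {k : ℕ} (u : Fin k → ℤ) : uu u 0 = 0 := rfl
theorem uu_succ {k : ℕ} (u : Fin k → ℤ) (j : Fin k) : uu u j.succ = u j := by simp [uu]

theorem sep_count {k : ℕ} (T N sep : ℕ) (hN : 1 ≤ N) (c : Fin k → ℤ) (C : ℤ) (j j' : Fin (k + 1))
    (hj : j ≠ j') :
    (T : ℝ) * (((Fintype.piFinset (fun _ : Fin k => Ico 0 (T : ℤ))).filter (fun y =>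
      |C + uu (fun i => c i + N * y i) j - uu (fun i => c i + N * y i) j'| < sep)).card : ℝ) ≤
      (2 * sep : ℕ) * (T : ℝ) ^ k := by
  rcases Fin.eq_zero_or_eq_succ j with h0 | ⟨i, hi⟩
  · subst h0
    obtain ⟨i', hi'⟩ := Fin.exists_succ_eq.2 hj.symm
    subst hi'
    apply line_count T (2 * sep) i'
    intro y
    refine le_trans (card_le_card ?_) (line_few (Ico 0 (T : ℤ)) N sep hN (c i' - C))
    intro t ht
    rw [mem_filter] at ht ⊢
    refine ⟨ht.1, ?_⟩
    have h1 := ht.2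
    rw [uu_zero, uu_succ, Function.update_self] at h1
    rw [← abs_neg]
    convert h1 using 2
    ring
  · subst hi
    apply line_count T (2 * sep) i
    intro y
    refine le_trans (card_le_card ?_) (line_few (Ico 0 (T : ℤ)) N sep hN
      (C + c i - uu (fun i => c i + N * y i) j'))
    intro t ht
    rw [mem_filter] at ht ⊢
    refine ⟨ht.1, ?_⟩
    have h1 := ht.2
    rw [uu_succ, Function.update_self] at h1
    have h2 : uu (fun i_1 => c i_1 + (N : ℤ) * Function.update y i t i_1) j' =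
        uu (fun i => c i + N * y i) j' := by
      rcases Fin.eq_zero_or_eq_succ j' with h0 | ⟨i', hi'⟩
      · subst h0
        rw [uu_zero, uu_zero]
      · subst hi'
        rw [uu_succ, uu_succ]
        have : i' ≠ i := fun h => hj (by rw [h])
        rw [Function.update_of_ne this]
    rw [h2] at h1
    convert h1 using 2
    ring

open Classical in
/-- **the choice of the position of the next level** -/
theorem choose_u (hAVG : S_AVG) (k : ℕ) (Ω : Type) [Fintype Ω] [DecidableEq Ω]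
    (x : Ω → ℤ) (Q : ℕ) (tests : Fin Q → Test k) (lam ε : ℝ) (hlam : 0 < lam) (hε : 0 < ε)
    (hsmall : (Fintype.card Ω : ℝ) ^ (k + 1) * Q * (4 * ε / lam) ≤ 1 / 4)
    (g : (Fin k → ℤ) → Prop) (γ : ℝ) (N00 Ni Nn M' : ℕ) (hNn : 1 ≤ Nn) (hM' : 1 ≤ M')
    (h0i : N00 ∣ Ni) (hin : Ni ∣ Nn) (hx : ∀ w, (Nn : ℤ) ∣ x w)
    (htests : ∀ κ, 1 ≤ (tests κ).m ∧ 1 ≤ (tests κ).T)
    (hlow : ∀ κ, ∀ z : Fin k → ℤ, (∀ j, (N00 : ℤ) ∣ z j) →
      (γ - ε) * ((tests κ).T : ℝ) ^ k ≤ (cnt g z (Nn * M' * (tests κ).m) (tests κ).T : ℝ))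
    (hext : ∀ L₀ : ℕ, ∃ T ≥ L₀, ∃ c : Fin k → ℤ, (∀ j, (Ni : ℤ) ∣ c j) ∧
      (cnt g c Nn T : ℝ) ≤ (γ + ε) * (T : ℝ) ^ k) (sep : ℕ) :
    ∃ u : Fin k → ℤ, (∀ j, (Ni : ℤ) ∣ u j) ∧
      (∀ j j' : Fin (k + 1), j ≠ j' → ∀ w w' : Ω, (sep : ℤ) ≤ |x w - x w' + uu u j - uu u j'|) ∧
      ∀ w : Fin (k + 1) → Ω, ∀ κ, (tests κ).ok g (Nn * M') γ lam
        (fun j => x (w j.succ) + uu u j.succ - x (w 0)) := by
  classical
  -- the quotients
  have hq : ∀ w, ∃ e : ℤ, x w = Nn * e := fun w => hx w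
  choose e he using hq
  -- the shift of the test
  set B : (Fin (k + 1) → Ω) → Fin Q → Fin k → ℤ := fun w κ j =>
    e (w j.succ) - e (w 0) + M' * (tests κ).b j with hB
  obtain ⟨R, hR⟩ : ∃ R : ℕ, ∀ w κ j, |B w κ j| ≤ R := by
    refine ⟨∑ w, ∑ κ, ∑ j, (B w κ j).natAbs, fun w κ j => ?_⟩
    have h1 : (B w κ j).natAbs ≤ ∑ w, ∑ κ, ∑ j, (B w κ j).natAbs := by
      refine le_trans ?_ (single_le_sum (f := fun w => ∑ κ, ∑ j, (B w κ j).natAbs)
        (fun _ _ => Nat.zero_le _) (mem_univ w))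
      refine le_trans ?_ (single_le_sum (f := fun κ => ∑ j, (B w κ j).natAbs)
        (fun _ _ => Nat.zero_le _) (mem_univ κ))
      exact single_le_sum (f := fun j => (B w κ j).natAbs) (fun _ _ => Nat.zero_le _) (mem_univ j)
    rw [Int.abs_eq_natAbs]
    exact_mod_cast h1
  have hA := fun κ => hAVG k ε hε (tests κ).T (M' * (tests κ).m) R (htests κ).2
    (Nat.one_le_iff_ne_zero.2 (Nat.mul_ne_zero (by omega) (by have := (htests κ).1; omega)))
  choose T₀ hT₀ using hA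
  set J : Finset (Fin (k + 1) × Fin (k + 1) × Ω × Ω) := univ.filter (fun p => p.1 ≠ p.2.1) with hJ
  obtain ⟨T, hT, c, hc, hcnt⟩ := hext (∑ κ, T₀ κ + 4 * J.card * (2 * sep) + 1)
  have hTκ : ∀ κ, T₀ κ ≤ T := by
    intro κ
    have : T₀ κ ≤ ∑ κ, T₀ κ := single_le_sum (f := T₀) (fun _ _ => Nat.zero_le _) (mem_univ κ)
    omega
  have hT1 : 1 ≤ T := by omega
  have hTR : (0 : ℝ) < T := by exact_mod_cast hT1
  have hTk : (0 : ℝ) < (T : ℝ) ^ k := by positivity
  -- the bad positions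
  set V := Fintype.piFinset (fun _ : Fin k => Ico 0 (T : ℤ)) with hV
  have hVc : (V.card : ℝ) = (T : ℝ) ^ k := by
    rw [hV, Fintype.card_piFinset, prod_const, card_univ, Fintype.card_fin, cardV]
    push_cast; rfl
  set B1 : (Fin (k + 1) → Ω) × Fin Q → Finset (Fin k → ℤ) := fun p => V.filter (fun y =>
    (γ + lam) * ((tests p.2).T : ℝ) ^ k < (cnt g (fun j => c j + Nn * (y j + B p.1 p.2 j))
      (Nn * (M' * (tests p.2).m)) (tests p.2).T : ℝ)) with hB1
  set B2 : Fin (k + 1) × Fin (k + 1) × Ω × Ω → Finset (Fin k → ℤ) := fun p => V.filter (fun y =>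
    |(x p.2.2.1 - x p.2.2.2) + uu (fun i => c i + Nn * y i) p.1 -
      uu (fun i => c i + Nn * y i) p.2.1| < sep) with hB2
  have hB1c : ∀ p, ((B1 p).card : ℝ) ≤ 4 * ε / lam * (T : ℝ) ^ k := by
    intro p
    refine hT₀ p.2 T (hTκ _) g c Nn γ lam hlam ?_ hcnt (B p.1 p.2) (hR _ _)
    intro y
    have := hlow p.2 (fun j => c j + Nn * y j) (fun j => ?_)
    · rw [← mul_assoc]
      exact this
    · apply dvd_add
      · exact (Int.natCast_dvd_natCast.2 h0i).trans (hc j)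
      · exact Dvd.dvd.mul_right (Int.natCast_dvd_natCast.2 (h0i.trans hin)) _
  have hB2c : ∀ p ∈ J, ((B2 p).card : ℝ) * T ≤ (2 * sep : ℕ) * (T : ℝ) ^ k := by
    intro p hp
    have hne := (mem_filter.1 hp).2
    have := sep_count T Nn sep hNn c (x p.2.2.1 - x p.2.2.2) p.1 p.2.1 hne
    rw [mul_comm]
    exact this
  have hU1 : ((univ.biUnion B1).card : ℝ) ≤ 1 / 4 * (T : ℝ) ^ k := by
    have h1 : ((univ.biUnion B1).card : ℝ) ≤ ∑ p, ((B1 p).card : ℝ) := by
      exact_mod_cast card_biUnion_le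
    refine h1.trans ((sum_le_sum fun p _ => hB1c p).trans ?_)
    rw [sum_const, card_univ, Fintype.card_prod, Fintype.card_fun, Fintype.card_fin,
      Fintype.card_fin, nsmul_eq_mul]
    push_cast
    calc (Fintype.card Ω : ℝ) ^ (k + 1) * Q * (4 * ε / lam * (T : ℝ) ^ k) =
        ((Fintype.card Ω : ℝ) ^ (k + 1) * Q * (4 * ε / lam)) * (T : ℝ) ^ k := by ring
      _ ≤ _ := mul_le_mul_of_nonneg_right hsmall hTk.le
  have hU2 : ((J.biUnion B2).card : ℝ) ≤ 1 / 4 * (T : ℝ) ^ k := by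
    have h1 : ((J.biUnion B2).card : ℝ) ≤ ∑ p ∈ J, ((B2 p).card : ℝ) := by
      exact_mod_cast card_biUnion_le
    have h2 : ((J.biUnion B2).card : ℝ) * T ≤ (1 / 4 * (T : ℝ) ^ k) * T := by
      calc ((J.biUnion B2).card : ℝ) * T ≤ (∑ p ∈ J, ((B2 p).card : ℝ)) * T :=
            mul_le_mul_of_nonneg_right h1 hTR.le
        _ = ∑ p ∈ J, ((B2 p).card : ℝ) * T := by rw [sum_mul]
        _ ≤ ∑ p ∈ J, (2 * sep : ℕ) * (T : ℝ) ^ k := sum_le_sum hB2c
        _ = (J.card * (2 * sep : ℕ) : ℝ) * (T : ℝ) ^ k := by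
            rw [sum_const, nsmul_eq_mul]; ring
        _ ≤ (1 / 4 * T) * (T : ℝ) ^ k := by
            apply mul_le_mul_of_nonneg_right _ hTk.le
            have h3 : 4 * J.card * (2 * sep) ≤ T := by omega
            have h4 : (4 : ℝ) * J.card * (2 * sep : ℕ) ≤ T := by exact_mod_cast h3
            linarith
        _ = _ := by ring
    exact le_of_mul_le_mul_right h2 hTR
  obtain ⟨y, hy, hy1, hy2⟩ : ∃ y ∈ V, y ∉ univ.biUnion B1 ∧ y ∉ J.biUnion B2 := by
    by_contra hno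
    push Not at hno
    have h1 : V ⊆ univ.biUnion B1 ∪ J.biUnion B2 := by
      intro y hy
      by_cases h2 : y ∈ univ.biUnion B1
      · exact mem_union_left _ h2
      · exact mem_union_right _ (hno y hy h2)
    have h2 : (V.card : ℝ) ≤ (univ.biUnion B1).card + (J.biUnion B2).card := by
      exact_mod_cast (card_le_card h1).trans (card_union_le _ _)
    rw [hVc] at h2
    linarith
  refine ⟨fun j => c j + Nn * y j, fun j => ?_, ?_, ?_⟩
  · exact dvd_add (hc j) (Dvd.dvd.mul_right (Int.natCast_dvd_natCast.2 hin) _)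
  · intro j j' hjj w w'
    by_contra hlt
    apply hy2
    rw [mem_biUnion]
    exact ⟨(j, j', w, w'), mem_filter.2 ⟨mem_univ _, hjj⟩, mem_filter.2 ⟨hy, not_le.1 hlt⟩⟩
  · intro w κ
    by_contra hlt
    apply hy1
    rw [mem_biUnion]
    refine ⟨(w, κ), mem_univ _, mem_filter.2 ⟨hy, ?_⟩⟩
    unfold Test.ok at hlt
    rw [not_le] at hlt
    have e1 : (fun j => c j + (Nn : ℤ) * (y j + B w κ j)) =
        (fun j => (x (w j.succ) + uu (fun j => c j + (Nn : ℤ) * y j) j.succ - x (w 0)) +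
          ((Nn * M' : ℕ) : ℤ) * (tests κ).b j) := by
      funext j
      rw [uu_succ, he, he]
      simp only [hB]
      push_cast
      ring
    have e2 : Nn * (M' * (tests κ).m) = Nn * M' * (tests κ).m := by rw [mul_assoc]
    simp only []
    rw [e1, e2]
    exact hlt

end Pool.Agent.N646.BX
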