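import Pool.Agent.N646.BX.Stm

/-! Project BX: the final count. -/

set_option autoImplicit false

namespace Pool.Agent.N646.BX

open Finset

/-- the elements of the progression `p + s t`, `t ∈ [0, L)`, in `A` -/
noncomputable def Xs (A : Finset ℤ) (p : ℤ) (s L : ℕ) : Finset ℤ := (Ico 0 (L : ℤ)).filter (fun t => p + s * t ∈ A)

theorem mem_Xs {A : Finset ℤ} {p : ℤ} {s L : ℕ} {t : ℤ} :
    t ∈ Xs A p s L ↔ (0 ≤ t ∧ t < L) ∧ p + s * t ∈ A := by
  unfold Xs; rw [mem_filter, mem_Ico]

/-- the bad tuples -/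
def badS (k : ℕ) (g : (Fin k → ℤ) → Prop) (A : Finset ℤ) : Set (Fin (k + 1) → ℤ) :=
  {y : Fin (k + 1) → ℤ | (∀ i, y i ∈ A) ∧ Function.Injective y ∧ ¬ g (fun j => y j.succ - y 0)}

theorem badS_finite (k : ℕ) (g : (Fin k → ℤ) → Prop) (A : Finset ℤ) : (badS k g A).Finite := by
  apply (Set.Finite.subset (Fintype.piFinset (fun _ : Fin (k + 1) => A)).finite_toSet)
  rintro y ⟨h, -, -⟩
  rw [mem_coe, Fintype.mem_piFinset]
  exact h

open Classical in
theorem popular_good {k : ℕ} (g : (Fin k → ℤ) → Prop) (A : Finset ℤ) (p : Fin (k + 1) → ℤ) (s L T : ℕ)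
    (hs : 1 ≤ s) (hp : ∀ j j', j ≠ j' → ∀ t t' : ℤ, 0 ≤ t → t < L → 0 ≤ t' → t' < L →
      p j + s * t ≠ p j' + s * t') (c : ℝ) (hc : 0 < c) (hL : 1 ≤ L) :
    (((Fintype.piFinset (fun _ : Fin k => Ico 0 (T : ℤ))).filter (fun h => c * (L : ℝ) ≤
      (repV (fun j : Fin k => Xs A (p j.succ) s L) (Xs A (p 0) s L) h : ℝ))).card : ℝ) ≤
      (cnt g (fun j => p j.succ - p 0) s T : ℝ) + (Set.ncard (badS k g A) : ℝ) / (c * L) := by
  have hsZ : (s : ℤ) ≠ 0 := by exact_mod_cast (by omega : s ≠ 0)
  have hcL : 0 < c * (L : ℝ) := by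
    have : (0 : ℝ) < L := by exact_mod_cast hL
    positivity
  set X0 := Xs A (p 0) s L with hX0
  set X : Fin k → Finset ℤ := fun j => Xs A (p j.succ) s L with hX
  set H := (Fintype.piFinset (fun _ : Fin k => Ico 0 (T : ℤ))).filter (fun h => c * (L : ℝ) ≤
      (repV X X0 h : ℝ)) with hH
  set Hb := H.filter (fun h => ¬ g (fun j => (p j.succ - p 0) + s * h j)) with hHb
  have h1 : (H.card : ℝ) ≤ (cnt g (fun j => p j.succ - p 0) s T : ℝ) + Hb.card := by
    have h2 := card_filter_add_card_filter_not (s := H)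
      (fun h => g (fun j => (p j.succ - p 0) + s * h j))
    have h3 : (H.filter (fun h => g (fun j => (p j.succ - p 0) + s * h j))).card ≤
        cnt g (fun j => p j.succ - p 0) s T := by
      unfold cnt
      apply card_le_card
      intro h hh
      rw [mem_filter] at hh ⊢
      exact ⟨(mem_filter.1 hh.1).1, hh.2⟩
    have h4 : H.card ≤ cnt g (fun j => p j.succ - p 0) s T + Hb.card := by
      rw [← h2]
      exact Nat.add_le_add_right h3 _
    exact_mod_cast h4
  have h5 : c * (L : ℝ) * (Hb.card : ℝ) ≤ (Set.ncard (badS k g A) : ℝ) := by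
    set D := (Hb ×ˢ X0).filter (fun q => ∀ j, q.2 + q.1 j ∈ X j) with hD
    have h6 : c * (L : ℝ) * (Hb.card : ℝ) ≤ (D.card : ℝ) := by
      have h7 : D.card = ∑ h ∈ Hb, repV X X0 h := by
        rw [hD, card_filter, sum_product]
        refine sum_congr rfl fun h _ => ?_
        unfold repV
        rw [card_filter]
      rw [h7]
      push_cast
      calc c * (L : ℝ) * (Hb.card : ℝ) = ∑ h ∈ Hb, c * (L : ℝ) := by
            rw [sum_const, nsmul_eq_mul]; ring
        _ ≤ _ := sum_le_sum fun h hh => (mem_filter.1 (mem_filter.1 hh).1).2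
    refine h6.trans ?_
    rw [← Set.ncard_coe_finset]
    have h8 : Set.ncard (D : Set ((Fin k → ℤ) × ℤ)) ≤ Set.ncard (badS k g A) := by
      refine Set.ncard_le_ncard_of_injOn (fun q => (Fin.cons (p 0 + s * q.2)
        (fun j => p j.succ + s * (q.2 + q.1 j)) : Fin (k + 1) → ℤ)) ?_ ?_ (badS_finite k g A)
      · rintro ⟨h, t⟩ hq
        rw [mem_coe, hD, mem_filter, mem_product] at hq
        obtain ⟨⟨hh, ht⟩, hj⟩ := hq
        simp only at hh ht hj
        have ht' := mem_Xs.1 ht
        have hj' : ∀ j, (0 ≤ t + h j ∧ t + h j < L) ∧ p j.succ + s * (t + h j) ∈ A :=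
          fun j => mem_Xs.1 (hj j)
        refine ⟨?_, ?_, ?_⟩
        · intro i
          rcases Fin.eq_zero_or_eq_succ i with h0 | ⟨j, hj0⟩
          · subst h0; rw [Fin.cons_zero]; exact ht'.2
          · subst hj0; rw [Fin.cons_succ]; exact (hj' j).2
        · intro i i' hii
          by_contra hne
          rcases Fin.eq_zero_or_eq_succ i with h0 | ⟨j, hj0⟩
          · subst h0
            rcases Fin.eq_zero_or_eq_succ i' with h0' | ⟨j', hj0'⟩
            · exact hne h0'.symm
            · subst hj0'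
              rw [Fin.cons_zero, Fin.cons_succ] at hii
              exact hp _ _ hne _ _ ht'.1.1 ht'.1.2 (hj' j').1.1 (hj' j').1.2 hii
          · subst hj0
            rcases Fin.eq_zero_or_eq_succ i' with h0' | ⟨j', hj0'⟩
            · subst h0'
              rw [Fin.cons_zero, Fin.cons_succ] at hii
              exact hp _ _ hne _ _ (hj' j).1.1 (hj' j).1.2 ht'.1.1 ht'.1.2 hii
            · subst hj0'
              rw [Fin.cons_succ, Fin.cons_succ] at hii
              exact hp _ _ hne _ _ (hj' j).1.1 (hj' j).1.2 (hj' j').1.1 (hj' j').1.2 hii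
        · have h9 := (mem_filter.1 hh).2
          intro hg
          apply h9
          convert hg using 1
          funext j
          rw [Fin.cons_succ, Fin.cons_zero]
          ring
      · rintro ⟨h, t⟩ _ ⟨h', t'⟩ _ heq
        have e0 := congrFun heq 0
        simp only [Fin.cons_zero] at e0
        have et : t = t' := mul_left_cancel₀ hsZ (by linarith)
        subst et
        congr 1
        funext j
        have ej := congrFun heq j.succ
        simp only [Fin.cons_succ] at ej
        have := mul_left_cancel₀ hsZ (by linarith : (s : ℤ) * (t + h j) = s * (t + h' j))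
        linarith
    exact_mod_cast h8
  have h10 : (Hb.card : ℝ) ≤ (Set.ncard (badS k g A) : ℝ) / (c * L) := by
    rw [le_div_iff₀ hcL]
    linarith
  linarith

end Pool.Agent.N646.BX
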