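import Pool.Agent.N646.BX.Fco
import Pool.Agent.N646.BX.Cfn
import Pool.Agent.N646.BX.Pri

/-! Project BX: the main theorem. -/

set_option autoImplicit false

namespace Pool.Agent.N646.BX

open Finset Filter

/-- some box of arbitrarily large side has a proportion of good vectors below `γ`, for lattices
and positions of arbitrary divisibility -/
def Bad (k : ℕ) (g : (Fin k → ℤ) → Prop) (γ : ℝ) : Prop :=
  ∀ M : ℕ, 1 ≤ M → ∃ N : ℕ, 1 ≤ N ∧ M ∣ N ∧ ∀ L : ℕ, ∃ T ≥ L, ∃ c : Fin k → ℤ,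
    (∀ j, (M : ℤ) ∣ c j) ∧ (cnt g c N T : ℝ) < γ * (T : ℝ) ^ k

theorem Bad.pos {k : ℕ} {g : (Fin k → ℤ) → Prop} {γ : ℝ} (h : Bad k g γ) : 0 < γ := by
  obtain ⟨N, _, _, hN⟩ := h 1 le_rfl
  obtain ⟨T, hT, c, _, hc⟩ := hN 1
  have h1 : (0 : ℝ) ≤ (cnt g c N T : ℝ) := Nat.cast_nonneg _
  have h2 : (0 : ℝ) < (T : ℝ) ^ k := by
    have : (0 : ℝ) < T := by exact_mod_cast hT
    positivity
  by_contra hneg
  push Not at hneg
  nlinarith

/-- the windows -/
theorem windows {n : ℕ} (x : Fin n → ℤ) (N T₀ M₀ : ℕ) (hN : 1 ≤ N)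
    (hsep : ∀ w w', w ≠ w' → ((N * T₀ + 1 : ℕ) : ℤ) ≤ |x w - x w'|) (hx : ∀ w, (M₀ : ℤ) ∣ x w)
    (hM : M₀ ∣ N) : ∃ V : Finset ℤ, V.card = n * T₀ ∧ (∀ y ∈ V, (M₀ : ℤ) ∣ y) ∧
      ∀ A ⊆ V, ∑ w, (Xs A (x w) N T₀).card = A.card := by
  classical
  set P : Finset (Fin n × ℤ) := univ ×ˢ Ico 0 (T₀ : ℤ) with hP
  set φ : Fin n × ℤ → ℤ := fun p => x p.1 + N * p.2 with hφ
  have hNZ : (0 : ℤ) < N := by exact_mod_cast hN
  have hinj : Set.InjOn φ P := by
    rintro ⟨w, t⟩ hp ⟨w', t'⟩ hp' heq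
    rw [mem_coe, hP, mem_product, mem_Ico] at hp hp'
    simp only [mem_univ, true_and] at hp hp'
    have heq' : x w + N * t = x w' + N * t' := heq
    by_cases hw : w = w'
    · subst hw
      have : t = t' := mul_left_cancel₀ hNZ.ne' (by linarith)
      rw [this]
    · exfalso
      have h1 := hsep w w' hw
      have h2 : x w - x w' = N * (t' - t) := by linarith
      rw [h2, abs_mul, abs_of_pos hNZ] at h1
      have h3 : |t' - t| ≤ T₀ := by
        rw [abs_le]; constructor <;> linarith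
      have h4 : (N : ℤ) * |t' - t| ≤ N * T₀ := mul_le_mul_of_nonneg_left h3 hNZ.le
      push_cast at h1
      linarith
  refine ⟨P.image φ, ?_, ?_, ?_⟩
  · rw [card_image_of_injOn hinj, hP, card_product, card_univ, Fintype.card_fin, cardV]
  · intro y hy
    obtain ⟨p, _, rfl⟩ := mem_image.1 hy
    exact dvd_add (hx p.1) (Dvd.dvd.mul_right (Int.natCast_dvd_natCast.2 hM) _)
  · intro A hA
    have h1 : A = (P.filter (fun p => φ p ∈ A)).image φ := by
      ext y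
      rw [mem_image]
      constructor
      · intro hy
        obtain ⟨p, hp, rfl⟩ := mem_image.1 (hA hy)
        exact ⟨p, mem_filter.2 ⟨hp, hy⟩, rfl⟩
      · rintro ⟨p, hp, rfl⟩
        exact (mem_filter.1 hp).2
    have h2 : A.card = (P.filter (fun p => φ p ∈ A)).card := by
      conv_lhs => rw [h1]
      exact card_image_of_injOn (hinj.mono fun p hp => (mem_filter.1 hp).1)
    rw [h2, card_filter, hP, sum_product]
    refine sum_congr rfl fun w _ => ?_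
    unfold Xs
    rw [card_filter]

theorem Lc_succ (m r I l i : ℕ) (hi : i < I) : Lc m r I l i = m * r * Lc m r I l (i + 1) := by
  unfold Lc
  have : I - i = (I - (i + 1)) + 1 := by omega
  rw [this, pow_succ]
  ring

theorem le_Lc (m r I l i : ℕ) (hm : 1 ≤ m) (hr : 1 ≤ r) : l ≤ Lc m r I l i := by
  unfold Lc
  exact Nat.le_mul_of_pos_left _ (Nat.pow_pos (Nat.mul_pos hm hr))

theorem st_lt (m r I l i b q t : ℕ) (hm : 1 ≤ m) (hb : b < m ^ i) (hq : q < r ^ i) (hi : i ≤ I)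
    (ht : t < Lc m r I l i) : st m r I l i b q + m ^ i * t < (m * r) ^ I * l := by
  unfold st
  have h1 : m ^ i * (Lc m r I l i * q) + m ^ i * t + m ^ i ≤ m ^ i * (Lc m r I l i * r ^ i) := by
    have h2 : Lc m r I l i * q + t + 1 ≤ Lc m r I l i * r ^ i := by
      calc Lc m r I l i * q + t + 1 ≤ Lc m r I l i * q + Lc m r I l i := by omega
        _ = Lc m r I l i * (q + 1) := by ring
        _ ≤ _ := Nat.mul_le_mul_left _ hq
    calc m ^ i * (Lc m r I l i * q) + m ^ i * t + m ^ i = m ^ i * (Lc m r I l i * q + t + 1) := by ring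
      _ ≤ _ := Nat.mul_le_mul_left _ h2
  have h3 : m ^ i * (Lc m r I l i * r ^ i) = (m * r) ^ I * l := by
    unfold Lc
    have h4 : (m * r) ^ I = (m * r) ^ (I - i) * (m * r) ^ i := by
      rw [← pow_add]; congr 1; omega
    rw [h4, mul_pow m r i]
    ring
  omega

theorem Xs_card_le (A : Finset ℤ) (p : ℤ) (s L : ℕ) : (Xs A p s L).card ≤ L := by
  unfold Xs
  refine (card_filter_le _ _).trans ?_
  rw [cardV]

/-- **the main theorem** -/
theorem main_thm (hCELL : S_CELL) (hSK : ∀ k, S_SK k) (hCFG : S_CFG) (k : ℕ) (hk : 1 ≤ k) (ρ : ℝ)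
    (hρ0 : 0 < ρ) (hρ : ρ ≤ 1 / 2) (ε : ℝ) (hε : 0 < ε) : ∃ ε' : ℝ, 0 < ε' ∧
    ∀ g : (Fin k → ℤ) → Prop, CLe k g ρ ε' → ∃ M : ℕ, 1 ≤ M ∧ ∀ N : ℕ, 1 ≤ N → M ∣ N → ∃ L : ℕ,
      ∀ T : ℕ, L ≤ T → ∀ c : Fin k → ℤ, (∀ j, (M : ℤ) ∣ c j) →
        ((k + 1) * ρ ^ k - ε) * (T : ℝ) ^ k ≤ (cnt g c N T : ℝ) := by
  classical
  have hkR : (0 : ℝ) < k := by exact_mod_cast hk
  set ε₁ : ℝ := ε / 8 with hε₁
  have hε₁0 : 0 < ε₁ := by positivity
  -- the choice of `θ`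
  obtain ⟨θ, hθ0, hθρ, hθ⟩ : ∃ θ : ℝ, 0 < θ ∧ 4 * θ ≤ ρ ∧
      (k + 1) * ρ ^ k - ε₁ ≤ (k + 1) * (ρ - 3 * θ) ^ k := by
    have hcont : ContinuousAt (fun x : ℝ => ((k : ℝ) + 1) * x ^ k) ρ := by fun_prop
    have h1 := hcont.eventually (lt_mem_nhds (show ((k : ℝ) + 1) * ρ ^ k - ε₁ < (k + 1) * ρ ^ k by
      linarith))
    obtain ⟨d, hd, h2⟩ := Metric.eventually_nhds_iff.1 h1
    refine ⟨min (d / 4) (ρ / 4), lt_min (by positivity) (by positivity), ?_, ?_⟩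
    · have := min_le_right (d / 4) (ρ / 4)
      linarith
    · apply le_of_lt
      apply h2
      rw [Real.dist_eq]
      have h3 := min_le_left (d / 4) (ρ / 4)
      have h4 : 0 < min (d / 4) (ρ / 4) := lt_min (by positivity) (by positivity)
      rw [abs_lt]
      constructor <;> linarith
  set β : ℝ := ρ - 3 * θ with hβ
  have hβ0 : 0 < β := by linarith
  obtain ⟨m, r, s, hm, hr, hs, c, hc, n₁, hS⟩ := hSK k β ε₁ hβ0 (by linarith) hε₁0
  have hrs : 1 ≤ r * s := Nat.mul_pos hr hs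
  obtain ⟨I, hI, hcell⟩ := hCELL (k + 1) m (r * s) hm hrs θ hθ0
  obtain ⟨v, hv⟩ := exists_nat_ge ((k : ℝ) / θ)
  have hv' : 1 - v * θ / k ≤ 0 := by
    rw [div_le_iff₀ hθ0] at hv
    have : 1 ≤ v * θ / k := by
      rw [le_div_iff₀ hkR]; linarith
    linarith
  -- the tests
  let Idx : Type := Σ i : Fin I, (Fin (k + 1) → Fin (m ^ (i : ℕ)) × Fin ((r * s) ^ (i : ℕ)))
  set Q : ℕ := Fintype.card Idx with hQ
  let eI : Idx ≃ Fin Q := Fintype.equivFin Idx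
  obtain ⟨ε₂, hε₂, hcfg⟩ := hCFG k v Q ε₁ θ hk hε₁0 hθ0
  set Z : ℝ := ((((k + 1) ^ v * (m * (r * s)) ^ I : ℕ)) : ℝ) ^ (k + 1) with hZ
  have hZ0 : 0 < Z := by
    have : 0 < (k + 1) ^ v * (m * (r * s)) ^ I := by positivity
    have : (0 : ℝ) < (((k + 1) ^ v * (m * (r * s)) ^ I : ℕ) : ℝ) := by exact_mod_cast this
    positivity
  refine ⟨min θ (ε₁ * c / Z), lt_min hθ0 (by positivity), ?_⟩
  intro g hCL
  set ε' : ℝ := min θ (ε₁ * c / Z) with hε'
  have hε'θ : ε' ≤ θ := min_le_left _ _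
  have hε'Z : ε' * Z ≤ ε₁ * c := by
    have : ε' ≤ ε₁ * c / Z := min_le_right _ _
    rwa [le_div_iff₀ hZ0] at this
  obtain ⟨M₀, n₀, hM₀, hCL⟩ := hCL
  by_contra hcon
  have hbad0 : Bad k g ((k + 1) * ρ ^ k - ε) := by
    intro M hM
    by_contra hno
    apply hcon
    refine ⟨M, hM, fun N hN hMN => ?_⟩
    by_contra hno2
    apply hno
    refine ⟨N, hN, hMN, fun L => ?_⟩
    by_contra hno3
    apply hno2
    refine ⟨L, fun T hT c hc => ?_⟩
    by_contra hno4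
    exact hno3 ⟨T, hT, c, hc, not_le.1 hno4⟩
  set Γ : ℝ := sInf {γ | Bad k g γ} with hΓ
  have hbdd : BddBelow {γ | Bad k g γ} := ⟨0, fun γ hγ => (Bad.pos hγ).le⟩
  have hne : {γ | Bad k g γ}.Nonempty := ⟨_, hbad0⟩
  have hΓ0 : 0 ≤ Γ := le_csInf hne fun γ hγ => (Bad.pos hγ).le
  have hΓ1 : Γ ≤ (k + 1) * ρ ^ k - ε := csInf_le hbdd hbad0
  obtain ⟨γ₁, hγ₁, hγ₁'⟩ := exists_lt_of_csInf_lt hne (show sInf {γ | Bad k g γ} < Γ + ε₂ by linarith)
  have hnb : ¬ Bad k g (Γ - ε₂) := fun h => by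
    have := csInf_le hbdd h
    linarith
  obtain ⟨M₁, hM₁, hlow⟩ : ∃ M₁ : ℕ, 1 ≤ M₁ ∧ ∀ N : ℕ, 1 ≤ N → M₁ ∣ N → ∃ L : ℕ, ∀ T : ℕ, L ≤ T →
      ∀ c : Fin k → ℤ, (∀ j, (M₁ : ℤ) ∣ c j) → (Γ - ε₂) * (T : ℝ) ^ k ≤ (cnt g c N T : ℝ) := by
    unfold Bad at hnb
    push Not at hnb
    exact hnb
  -- the moduli
  have hB : ∀ M : ℕ, ∃ N : ℕ, 1 ≤ M → 1 ≤ N ∧ M ∣ N ∧ ∀ L : ℕ, ∃ T ≥ L, ∃ c : Fin k → ℤ,
      (∀ j, (M : ℤ) ∣ c j) ∧ (cnt g c N T : ℝ) < γ₁ * (T : ℝ) ^ k := by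
    intro M
    by_cases hM : 1 ≤ M
    · obtain ⟨N, hN⟩ := hγ₁ M hM
      exact ⟨N, fun _ => hN⟩
    · exact ⟨0, fun h => absurd h hM⟩
  choose nxt hnxt using hB
  set N : ℕ → ℕ := fun i => Nat.rec (M₀ * M₁) (fun _ a => nxt a) i with hNdef
  have hNs : ∀ i, N (i + 1) = nxt (N i) := fun i => rfl
  have hN1 : ∀ i, 1 ≤ N i := by
    intro i
    induction i with
    | zero => exact Nat.mul_pos hM₀ hM₁
    | succ i ih => rw [hNs]; exact (hnxt _ ih).1
  have hNd : ∀ i, N i ∣ N (i + 1) := fun i => by rw [hNs]; exact (hnxt _ (hN1 i)).2.1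
  have hN0 : ∀ i, M₀ * M₁ ∣ N i := fun i => dvd_of_le hNd (Nat.zero_le i)
  -- the length
  have hth : ∀ i : Fin I, ∃ L : ℕ, ∀ T : ℕ, L ≤ T → ∀ c : Fin k → ℤ, (∀ j, (M₁ : ℤ) ∣ c j) →
      (Γ - ε₂) * (T : ℝ) ^ k ≤ (cnt g c (N v * m ^ (i : ℕ)) T : ℝ) := by
    intro i
    apply hlow
    · exact Nat.mul_pos (hN1 v) (Nat.pow_pos hm)
    · exact Dvd.dvd.mul_right ((Dvd.intro_left _ rfl).trans (hN0 v)) _
  choose Lt hLt using hth
  set l : ℕ := n₁ + n₀ + ∑ i, Lt i + 1 with hl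
  have hl1 : 1 ≤ l := by omega
  have hlR : (0 : ℝ) < l := by exact_mod_cast hl1
  set T₀ : ℕ := (m * (r * s)) ^ I * l with hT₀
  have hT₀l : l ≤ T₀ := Nat.le_mul_of_pos_left _ (Nat.pow_pos (Nat.mul_pos hm hrs))
  have hT₀R : (0 : ℝ) < T₀ := by exact_mod_cast lt_of_lt_of_le hl1 hT₀l
  set tests : Fin Q → Test k := fun κ =>
    let p := eI.symm κ
    { b := fun j => (st m (r * s) I l p.1 (p.2 j.succ).1 (p.2 j.succ).2 : ℤ) -
        st m (r * s) I l p.1 (p.2 0).1 (p.2 0).2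
      m := m ^ (p.1 : ℕ)
      T := m * r * Lc m (r * s) I l (p.1 + 1) } with htests
  have hTl : ∀ i : ℕ, l ≤ m * r * Lc m (r * s) I l (i + 1) := fun i =>
    (le_Lc m (r * s) I l (i + 1) hm hrs).trans (Nat.le_mul_of_pos_left _ (Nat.mul_pos hm hr))
  obtain ⟨x, hx1, hx2, hx3⟩ := hcfg g Γ N tests hΓ0 hN1 hNd (by
    intro κ
    exact ⟨Nat.pow_pos hm, hl1.trans (hTl _)⟩) (by
    intro κ z hz
    refine hLt (eI.symm κ).1 _ ?_ z (fun j => ?_)
    · refine le_trans ?_ (hTl _)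
      have : Lt (eI.symm κ).1 ≤ ∑ i, Lt i :=
        single_le_sum (f := Lt) (fun _ _ => Nat.zero_le _) (mem_univ _)
      omega
    · exact (Int.natCast_dvd_natCast.2 ((Dvd.intro_left _ rfl).trans (hN0 0))).trans (hz j)) (by
    intro i _ L₀
    obtain ⟨T, hT, c, hc1, hc2⟩ := (hnxt (N i) (hN1 i)).2.2 L₀
    refine ⟨T, hT, c, hc1, ?_⟩
    rw [hNs]
    refine hc2.le.trans (mul_le_mul_of_nonneg_right hγ₁'.le (by positivity))) (N v * T₀ + 1)
  -- the windows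
  have hMN : M₀ ∣ N v := (Dvd.intro _ rfl).trans (hN0 v)
  obtain ⟨V, hVc, hVM, hVA⟩ := windows x (N v) T₀ M₀ (hN1 v) hx2
    (fun w => (Int.natCast_dvd_natCast.2 ((Dvd.intro _ rfl).trans (hN0 0))).trans (hx1 w)) hMN
  have hnV : n₀ ≤ V.card := by
    rw [hVc]
    have h1 : 1 ≤ (k + 1) ^ v := Nat.pow_pos (by omega)
    calc n₀ ≤ T₀ := by omega
      _ = 1 * T₀ := (one_mul _).symm
      _ ≤ _ := Nat.mul_le_mul_right _ h1
  obtain ⟨A, hAV, hAc, hAbad⟩ := hCL V hVM hnV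
  have hsumA := hVA A hAV
  set As : Fin ((k + 1) ^ v) → Finset ℤ := fun w => Xs A (x w) (N v) T₀ with hAs
  set f : Fin ((k + 1) ^ v) → ℝ := fun w => ((As w).card : ℝ) / T₀ with hf
  have hkv : (0 : ℝ) < (((k + 1) ^ v : ℕ) : ℝ) := by
    have : 0 < (k + 1) ^ v := by positivity
    exact_mod_cast this
  have hfs : ∑ w, f w = (A.card : ℝ) / T₀ := by
    simp only [hf]
    rw [← sum_div, ← hsumA]
    push_cast
    rfl
  have hfs2 : (ρ - ε') * (((k + 1) ^ v : ℕ) : ℝ) ≤ ∑ w, f w := by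
    rw [hfs, le_div_iff₀ hT₀R]
    rw [hVc] at hAc
    push_cast at hAc ⊢
    linarith
  have hρε : 0 < ρ - ε' := by linarith
  obtain ⟨S, hS1, hS2, hS3, hS4⟩ := hx3 f (fun w => ⟨by positivity, by
      simp only [hf]
      rw [div_le_one hT₀R]
      exact_mod_cast Xs_card_le _ _ _ _⟩) (by
      refine lt_of_le_of_lt (mul_le_mul_of_nonneg_right hv' hkv.le) ?_
      rw [zero_mul]
      exact lt_of_lt_of_le (by positivity) hfs2)
  -- the cells
  obtain ⟨i, hi, hcl⟩ := hcell l hl1 (Fin ((k + 1) ^ v)) S As (ρ - 2 * θ) hS1 (by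
      intro w
      simp only [hAs, Xs]
      exact filter_subset _ _) (by
      intro j
      have h1 := hS3 j
      have h2 : ρ - 2 * θ ≤ (∑ w, f w) / (((k + 1) ^ v : ℕ) : ℝ) - θ := by
        have : ρ - ε' ≤ (∑ w, f w) / (((k + 1) ^ v : ℕ) : ℝ) := by
          rw [le_div_iff₀ hkv]; exact hfs2
        linarith
      have h3 : (ρ - 2 * θ) * ((S j).card : ℝ) ≤ ∑ w ∈ S j, f w :=
        (mul_le_mul_of_nonneg_right h2 (Nat.cast_nonneg _)).trans h1
      have h4 : ∑ w ∈ S j, f w = (∑ w ∈ S j, ((As w).card : ℝ)) / T₀ := by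
        simp only [hf]
        rw [sum_div]
      rw [h4, le_div_iff₀ hT₀R] at h3
      calc (ρ - 2 * θ) * ((m * (r * s)) ^ I * l : ℕ) * ((S j).card : ℝ) =
          (ρ - 2 * θ) * ((S j).card : ℝ) * T₀ := by rw [hT₀]; ring
        _ ≤ _ := h3)
  choose w hwS b hb q hq hcells using hcl
  set l' : ℕ := Lc m (r * s) I l (i + 1) with hl'
  have hLcl : Lc m (r * s) I l i = m * (r * s) * l' := Lc_succ m (r * s) I l i hi
  have hl'l : l ≤ l' := le_Lc m (r * s) I l (i + 1) hm hrs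
  set T : ℕ := m * r * l' with hT
  set L : ℕ := m * (r * s) * l' with hL
  have hlT : l ≤ T := hTl i
  have hlL : l ≤ L := hl'l.trans (Nat.le_mul_of_pos_left _ (Nat.mul_pos hm hrs))
  set step : ℕ := N v * m ^ i with hstep
  set p : Fin (k + 1) → ℤ := fun j => x (w j) + N v * (st m (r * s) I l i (b j) (q j) : ℤ) with hp
  -- membership
  have hmemb : ∀ j (t : ℕ), t < L → (((st m (r * s) I l i (b j) (q j) + m ^ i * t : ℕ) : ℤ) ∈ As (w j)) →
      (t : ℤ) ∈ Xs A (p j) step L := by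
    intro j t ht hmem
    rw [mem_Xs]
    refine ⟨⟨by positivity, by exact_mod_cast ht⟩, ?_⟩
    have h1 := (mem_Xs.1 hmem).2
    convert h1 using 1
    simp only [hp, hstep]
    push_cast
    ring
  have hpop := hS l' (by omega) (fun j => Xs A (p j) step L) (by
      intro j
      unfold Xs
      exact filter_subset _ _) (by
      intro j a ha d hd
      have h1 := hcells j a ha d hd
      have h2 : ρ - 2 * θ - θ = β := by rw [hβ]; ring
      rw [h2] at h1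
      refine h1.trans ?_
      rw [Nat.cast_le]
      apply card_le_card
      intro t ht
      rw [mem_filter, mem_range] at ht ⊢
      refine ⟨ht.1, hmemb j _ ?_ ht.2⟩
      rw [hL]
      have h3 : d * l' + t + 1 ≤ r * s * l' := by
        calc d * l' + t + 1 ≤ d * l' + l' := by have := ht.1; omega
          _ = (d + 1) * l' := by ring
          _ ≤ _ := Nat.mul_le_mul_right _ hd
      calc a + m * (d * l' + t) < m + m * (d * l' + t) := by omega
        _ = m * (d * l' + t + 1) := by ring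
        _ ≤ m * (r * s * l') := Nat.mul_le_mul_left _ h3
        _ = _ := by ring)
  -- the windows of the progressions are disjoint
  have hwne : ∀ j j', j ≠ j' → w j ≠ w j' := by
    intro j j' hjj heq
    have h1 := hwS j'
    rw [← heq] at h1
    exact (disjoint_left.1 (hS2 j j' hjj)) (hwS j) h1
  have hdisj : ∀ j j', j ≠ j' → ∀ t t' : ℤ, 0 ≤ t → t < L → 0 ≤ t' → t' < L →
      p j + step * t ≠ p j' + step * t' := by
    intro j j' hjj t t' ht0 ht ht0' ht' heq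
    have h1 := hx2 (w j) (w j') (hwne j j' hjj)
    obtain ⟨τ, rfl⟩ := Int.eq_ofNat_of_zero_le ht0
    obtain ⟨τ', rfl⟩ := Int.eq_ofNat_of_zero_le ht0'
    have hτ : τ < L := by exact_mod_cast ht
    have hτ' : τ' < L := by exact_mod_cast ht'
    have h2 := st_lt m (r * s) I l i (b j) (q j) τ hm (hb j) (hq j) hi.le (by rw [hLcl]; exact hτ)
    have h3 := st_lt m (r * s) I l i (b j') (q j') τ' hm (hb j') (hq j') hi.le (by rw [hLcl]; exact hτ')
    rw [← hT₀] at h2 h3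
    set A1 := st m (r * s) I l i (b j) (q j) + m ^ i * τ with hA1
    set A2 := st m (r * s) I l i (b j') (q j') + m ^ i * τ' with hA2
    have h4 : x (w j) - x (w j') = N v * ((A2 : ℤ) - A1) := by
      have : p j + (step : ℤ) * τ = p j' + step * τ' := heq
      simp only [hp, hstep] at this
      rw [hA1, hA2]
      push_cast at this ⊢
      linarith
    have hNZ : (0 : ℤ) < N v := by exact_mod_cast hN1 v
    rw [h4, abs_mul, abs_of_pos hNZ] at h1
    have h5 : |(A2 : ℤ) - A1| ≤ T₀ := by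
      rw [abs_le]; constructor <;> omega
    have h6 := mul_le_mul_of_nonneg_left h5 hNZ.le
    push_cast at h1
    linarith
  have hfin := popular_good g A p step L T (Nat.mul_pos (hN1 v) (Nat.pow_pos hm)) hdisj c hc
    (hl1.trans hlL)
  -- the test
  set κ : Fin Q := eI ⟨⟨i, hi⟩, fun j => (⟨b j, hb j⟩, ⟨q j, hq j⟩)⟩ with hκ
  have hok := hS4 w hwS κ
  have hokc : (cnt g (fun j => p j.succ - p 0) step T : ℝ) ≤ (Γ + ε₁) * (T : ℝ) ^ k := by
    have htk : tests κ = (⟨fun j => (st m (r * s) I l i (b j.succ) (q j.succ) : ℤ) -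
          st m (r * s) I l i (b 0) (q 0), m ^ i, m * r * Lc m (r * s) I l (i + 1)⟩ : Test k) := by
      have hs : eI.symm κ = ⟨⟨i, hi⟩, fun j => (⟨b j, hb j⟩, ⟨q j, hq j⟩)⟩ := by
        rw [hκ]; exact eI.symm_apply_apply _
      have h0 : tests κ = (fun p : Idx => (⟨fun j =>
          (st m (r * s) I l p.1 (p.2 j.succ).1 (p.2 j.succ).2 : ℤ) -
          st m (r * s) I l p.1 (p.2 0).1 (p.2 0).2, m ^ (p.1 : ℕ),
          m * r * Lc m (r * s) I l (p.1 + 1)⟩ : Test k)) (eI.symm κ) := rfl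
      rw [h0, hs]
    rw [htk] at hok
    unfold Test.ok at hok
    have e1 : (fun j : Fin k => p j.succ - p 0) = (fun j : Fin k => x (w j.succ) - x (w 0) +
        (N v : ℤ) * ((st m (r * s) I l i (b j.succ) (q j.succ) : ℤ) -
          st m (r * s) I l i (b 0) (q 0))) := by
      funext j
      simp only [hp]
      ring
    rw [e1]
    exact hok
  -- the bound for the bad tuples
  have hTk : (l : ℝ) ^ k ≤ (T : ℝ) ^ k :=
    pow_le_pow_left₀ hlR.le (by exact_mod_cast hlT) _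
  have hbadb : (Set.ncard (badS k g A) : ℝ) / (c * L) ≤ ε₁ * (T : ℝ) ^ k := by
    have hLR : (0 : ℝ) < L := by exact_mod_cast lt_of_lt_of_le hl1 hlL
    rw [div_le_iff₀ (by positivity)]
    have h1 : (Set.ncard (badS k g A) : ℝ) ≤ ε' * (V.card : ℝ) ^ (k + 1) := hAbad
    refine h1.trans ?_
    have h2 : (V.card : ℝ) ^ (k + 1) = Z * (l : ℝ) ^ (k + 1) := by
      rw [hVc, hT₀, hZ, ← mul_pow]
      push_cast
      ring
    rw [h2]
    calc ε' * (Z * (l : ℝ) ^ (k + 1)) = (ε' * Z) * (l : ℝ) ^ (k + 1) := by ring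
      _ ≤ (ε₁ * c) * (l : ℝ) ^ (k + 1) := mul_le_mul_of_nonneg_right hε'Z (by positivity)
      _ = (ε₁ * c) * ((l : ℝ) ^ k * l) := by rw [pow_succ]
      _ ≤ (ε₁ * c) * ((T : ℝ) ^ k * L) := by
          apply mul_le_mul_of_nonneg_left _ (by positivity)
          exact mul_le_mul hTk (by exact_mod_cast hlL) hlR.le (by positivity)
      _ = _ := by ring
  have hTkp : (0 : ℝ) < (T : ℝ) ^ k := by
    have : (0 : ℝ) < T := by exact_mod_cast lt_of_lt_of_le hl1 hlT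
    positivity
  have hfinal : ((k + 1) * β ^ k - ε₁) * (T : ℝ) ^ k ≤ (Γ + 2 * ε₁) * (T : ℝ) ^ k := by
    have h1 := hpop.trans hfin
    calc ((k + 1) * β ^ k - ε₁) * (T : ℝ) ^ k ≤ _ := h1
      _ ≤ (Γ + ε₁) * (T : ℝ) ^ k + ε₁ * (T : ℝ) ^ k := add_le_add hokc hbadb
      _ = _ := by ring
  have hfinal' := le_of_mul_le_mul_right hfinal hTkp
  linarith

end Pool.Agent.N646.BX
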